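import Pool.Agent.X328.CF.Sums

/-! # The norms of the elements of a coset of `2 E₈` in `E₈`, coordinates -/

set_option autoImplicit false

namespace Pool.Agent.X328.CF

open Finset

/-- the lattice `E₈`, in coordinates multiplied by two -/
def InL (y : Fin 8 → ℤ) : Prop := (∀ i j, (y i - y j) % 2 = 0) ∧ (∑ i, y i) % 4 = 0

theorem sum_even_of {u : Fin 8 → ℤ} (h : ∀ i j, (u i - u j) % 2 = 0) : (∑ i, u i) % 2 = 0 := by
  rw [Fin.sum_univ_eight]
  have h1 := h 1 0
  have h2 := h 2 0
  have h3 := h 3 0
  have h4 := h 4 0
  have h5 := h 5 0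
  have h6 := h 6 0
  have h7 := h 7 0
  omega

/-- correction by a change of sign -/
theorem signFix {x x' : Fin 8 → ℤ} (h : ∀ i j, ((x' i - x i) - (x' j - x j)) % 2 = 0) {p : Fin 8}
    (hp : x' p % 2 = 1) : ∃ x'' : Fin 8 → ℤ, InL (fun i => x'' i - x i) ∧ ∑ i, x'' i ^ 2 = ∑ i, x' i ^ 2 := by
  have h2 := sum_even_of (u := fun i => x' i - x i) h
  by_cases h4 : (∑ i, (x' i - x i)) % 4 = 0
  · exact ⟨x', ⟨h, h4⟩, rfl⟩
  · refine ⟨Function.update x' p (-x' p), ⟨?_, ?_⟩, ?_⟩
    · have key : ∀ i, ((Function.update x' p (-x' p)) i - x' i) % 2 = 0 := by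
        intro i
        by_cases hi : i = p
        · subst hi
          rw [Function.update_self]
          omega
        · rw [Function.update_of_ne hi]
          omega
      intro i j
      have a := key i
      have b := key j
      have c := h i j
      dsimp only
      omega
    · have e : ∑ i, ((Function.update x' p (-x' p)) i - x i) =
          ∑ i, (x' i - x i) + (-2 * x' p) := by
        have e1 : ∑ i, ((Function.update x' p (-x' p)) i - x' i) = -2 * x' p := by
          rw [Finset.sum_eq_single p]
          · rw [Function.update_self]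
            ring
          · intro i _ hi
            rw [Function.update_of_ne hi]
            ring
          · intro hh
            exact absurd (Finset.mem_univ _) hh
        rw [← e1, ← Finset.sum_add_distrib]
        exact Finset.sum_congr rfl fun i _ => by ring
      rw [e]
      omega
    · refine Finset.sum_congr rfl fun i _ => ?_
      by_cases hi : i = p
      · subst hi
        rw [Function.update_self]
        ring
      · rw [Function.update_of_ne hi]

theorem sum_change {S : Finset (Fin 8)} (f x : Fin 8 → ℤ) (φ : ℤ → ℤ) :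
    ∑ i, φ (if i ∈ S then f i else x i) = ∑ i, φ (x i) + (∑ i ∈ S, φ (f i) - ∑ i ∈ S, φ (x i)) := by
  have h1 : ∀ i, φ (if i ∈ S then f i else x i) =
      φ (x i) + if i ∈ S then φ (f i) - φ (x i) else 0 := by
    intro i
    by_cases hi : i ∈ S
    · rw [if_pos hi, if_pos hi]
      ring
    · rw [if_neg hi, if_neg hi]
      ring
  rw [Finset.sum_congr rfl fun i _ => h1 i, Finset.sum_add_distrib, Finset.sum_ite_mem,
    Finset.univ_inter, Finset.sum_sub_distrib]

theorem sum_sq_nonneg {α : Type} (S : Finset α) (f : α → ℤ) : 0 ≤ ∑ i ∈ S, f i ^ 2 :=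
  Finset.sum_nonneg fun _ _ => sq_nonneg _

theorem mul_succ_nonneg (a : ℤ) : 0 ≤ a * (a + 1) := by
  rcases le_or_gt 0 a with h | h
  · positivity
  · nlinarith

theorem mul_succ_even (a : ℤ) : (a * (a + 1)) % 2 = 0 :=
  Int.even_iff.1 (Int.even_mul_succ_self a)

/-- vectors with even coordinates -/
theorem even_case (x : Fin 8 → ℤ) (hx : (∑ i, x i) % 2 = 0) (hn : ¬ InL x) (j : ℕ) :
    ∃ x' : Fin 8 → ℤ, InL (fun i => x' i - x i) ∧ ∑ i, x' i ^ 2 = ∑ i, x i ^ 2 + 4 * j := by
  classical
  set Ev : Finset (Fin 8) := Finset.univ.filter fun i => x i % 2 = 0 with hEv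
  set Od : Finset (Fin 8) := Finset.univ.filter fun i => ¬ x i % 2 = 0 with hOd
  have hcard : Ev.card + Od.card = 8 := by
    rw [hEv, hOd, Finset.card_filter_add_card_filter_not]
    rfl
  have mEv : ∀ i, i ∈ Ev ↔ x i % 2 = 0 := fun i => by rw [hEv]; simp
  have mOd : ∀ i, i ∈ Od ↔ x i % 2 = 1 := fun i => by rw [hOd]; simp
  -- replacement of odd coordinates
  have oddrep : ∀ S : Finset (Fin 8), S.card = 4 → (∀ i ∈ S, x i % 2 = 1) → ∀ j : ℤ, 0 ≤ j →
      j % 2 = 0 → ∃ a : Fin 8 → ℤ,
        ∑ i ∈ S, (2 * a i + 1) ^ 2 = ∑ i ∈ S, x i ^ 2 + 4 * j := by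
    intro S hS hSo j hj hj2
    have e1 : ∑ i ∈ S, x i ^ 2 = 4 * ∑ i ∈ S, (x i / 2) * (x i / 2 + 1) + 4 := by
      have e2 : ∑ i ∈ S, x i ^ 2 = ∑ i ∈ S, (4 * ((x i / 2) * (x i / 2 + 1)) + 1) := by
        refine Finset.sum_congr rfl fun i hi => ?_
        have h1 := hSo i hi
        obtain ⟨b, hb⟩ : ∃ b, b = x i / 2 := ⟨_, rfl⟩
        rw [← hb]
        have h2 : x i = 2 * b + 1 := by omega
        rw [h2]
        ring
      rw [e2, Finset.sum_add_distrib, ← Finset.mul_sum, Finset.sum_const, hS]
      norm_num
    have e3 : (∑ i ∈ S, (x i / 2) * (x i / 2 + 1)) % 2 = 0 :=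
      Int.even_iff.1 (Finset.even_sum _ fun i _ => Int.even_mul_succ_self _)
    have e4 : 0 ≤ ∑ i ∈ S, (x i / 2) * (x i / 2 + 1) :=
      Finset.sum_nonneg fun i _ => mul_succ_nonneg _
    obtain ⟨a, ha⟩ := tri_on hS ((∑ i ∈ S, (x i / 2) * (x i / 2 + 1) + j) / 2) (by omega)
    refine ⟨a, ?_⟩
    have e5 : ∑ i ∈ S, (2 * a i + 1) ^ 2 = 4 * ∑ i ∈ S, a i * (a i + 1) + 4 := by
      have e6 : ∑ i ∈ S, (2 * a i + 1) ^ 2 = ∑ i ∈ S, (4 * (a i * (a i + 1)) + 1) :=
        Finset.sum_congr rfl fun i _ => by ring
      rw [e6, Finset.sum_add_distrib, ← Finset.mul_sum, Finset.sum_const, hS]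
      norm_num
    rw [e5, ha, e1]
    omega
  by_cases hE4 : 4 ≤ Ev.card
  · obtain ⟨S, hSE, hS⟩ := Finset.exists_subset_card_eq hE4
    by_cases hO : Od.Nonempty
    · -- some odd coordinate
      obtain ⟨p, hp⟩ := hO
      have hpo := (mOd p).1 hp
      have hpS : p ∉ S := fun h => by
        have := (mEv p).1 (hSE h)
        omega
      have e0 : ∑ i ∈ S, x i ^ 2 = 4 * ∑ i ∈ S, (x i / 2) ^ 2 := by
        rw [Finset.mul_sum]
        refine Finset.sum_congr rfl fun i hi => ?_
        have h1 := (mEv i).1 (hSE hi)
        obtain ⟨b, hb⟩ : ∃ b, b = x i / 2 := ⟨_, rfl⟩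
        rw [← hb]
        have h2 : x i = 2 * b := by omega
        rw [h2]
        ring
      obtain ⟨t, ht⟩ := sq_on hS (∑ i ∈ S, (x i / 2) ^ 2 + j)
        (add_nonneg (sum_sq_nonneg _ _) (by positivity))
      have key : ∀ i, ((if i ∈ S then 2 * t i else x i) - x i) % 2 = 0 := by
        intro i
        by_cases hi : i ∈ S
        · rw [if_pos hi]
          have := (mEv i).1 (hSE hi)
          omega
        · rw [if_neg hi]
          omega
      obtain ⟨x'', h1, h2⟩ := signFix (x := x) (x' := fun i => if i ∈ S then 2 * t i else x i)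
        (fun i k => by
          have a := key i
          have b := key k
          omega) (p := p) (by
          rw [if_neg hpS]
          exact hpo)
      refine ⟨x'', h1, ?_⟩
      rw [h2, sum_change (fun i => 2 * t i) x (fun z => z ^ 2), e0]
      have e1 : ∑ i ∈ S, (2 * t i) ^ 2 = 4 * ∑ i ∈ S, t i ^ 2 := by
        rw [Finset.mul_sum]
        exact Finset.sum_congr rfl fun i _ => by ring
      rw [e1, ht]
      ring
    · -- all coordinates even
      rw [Finset.not_nonempty_iff_eq_empty] at hO
      have hall : ∀ i, x i % 2 = 0 := by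
        intro i
        by_contra hcon
        have : i ∈ Od := (mOd i).2 (by omega)
        rw [hO] at this
        exact absurd this (Finset.notMem_empty _)
      have hsum4 : ¬ (∑ i, x i) % 4 = 0 := fun h => hn ⟨fun i k => by
        have a := hall i
        have b := hall k
        omega, h⟩
      obtain ⟨z, hz⟩ : ∃ z : Fin 8 → ℤ, ∀ i, x i = 2 * z i := ⟨fun i => x i / 2, fun i => by
        have := hall i
        dsimp only
        omega⟩
      have hxs : ∑ i, x i = 2 * ∑ i, z i := by
        rw [Finset.mul_sum]
        exact Finset.sum_congr rfl fun i _ => hz i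
      have hxq : ∑ i, x i ^ 2 = 4 * ∑ i, z i ^ 2 := by
        rw [Finset.mul_sum]
        exact Finset.sum_congr rfl fun i _ => by rw [hz]; ring
      have hzo : (∑ i, z i) % 2 = 1 := by omega
      have hzq := sum_sq_parity Finset.univ z
      rcases Nat.even_or_odd' j with ⟨m, hm | hm⟩
      · -- even target
        obtain ⟨t, ht⟩ := sq_on hS (∑ i ∈ S, z i ^ 2 + j)
          (add_nonneg (sum_sq_nonneg _ _) (by positivity))
        have hp1 := sum_sq_parity S t
        have hp2 := sum_sq_parity S z
        refine ⟨fun i => if i ∈ S then 2 * t i else x i, ⟨fun i k => ?_, ?_⟩, ?_⟩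
        · have key : ∀ i, ((if i ∈ S then 2 * t i else x i) - x i) % 2 = 0 := by
            intro i
            by_cases hi : i ∈ S
            · rw [if_pos hi]
              have := hall i
              omega
            · rw [if_neg hi]
              omega
          have a := key i
          have b := key k
          dsimp only
          omega
        · rw [Finset.sum_sub_distrib, sum_change (fun i => 2 * t i) x (fun z => z)]
          have e1 : ∑ i ∈ S, 2 * t i = 2 * ∑ i ∈ S, t i := by rw [Finset.mul_sum]
          have e2 : ∑ i ∈ S, x i = 2 * ∑ i ∈ S, z i := by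
            rw [Finset.mul_sum]
            exact Finset.sum_congr rfl fun i _ => hz i
          rw [e1, e2]
          have e3 : (j : ℤ) = 2 * m := by exact_mod_cast hm
          omega
        · rw [sum_change (fun i => 2 * t i) x (fun z => z ^ 2)]
          have e1 : ∑ i ∈ S, (2 * t i) ^ 2 = 4 * ∑ i ∈ S, t i ^ 2 := by
            rw [Finset.mul_sum]
            exact Finset.sum_congr rfl fun i _ => by ring
          have e2 : ∑ i ∈ S, x i ^ 2 = 4 * ∑ i ∈ S, z i ^ 2 := by
            rw [Finset.mul_sum]
            exact Finset.sum_congr rfl fun i _ => by rw [hz]; ring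
          rw [e1, e2, ht]
          ring
      · -- odd target
        have hz1 : 1 ≤ ∑ i, z i ^ 2 := by
          have h0 := sum_sq_nonneg Finset.univ z
          omega
        have hj : (j : ℤ) = 2 * m + 1 := by exact_mod_cast hm
        obtain ⟨a, ha⟩ := tri_on hS ((∑ i, z i ^ 2 + j - 2) / 2) (by omega)
        obtain ⟨x'', h1, h2⟩ := signFix (x := x)
          (x' := fun i => if i ∈ S then 2 * a i + 1 else 1)
          (fun i k => by
            have key : ∀ i, ((if i ∈ S then 2 * a i + 1 else 1) - x i) % 2 = 1 := by
              intro i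
              have := hall i
              by_cases hi : i ∈ S
              · rw [if_pos hi]
                omega
              · rw [if_neg hi]
                omega
            have a := key i
            have b := key k
            omega) (p := 0) (by
            split_ifs <;> omega)
        refine ⟨x'', h1, ?_⟩
        rw [h2, sum_change (fun i => 2 * a i + 1) (fun _ => 1) (fun z => z ^ 2)]
        have e5 : ∑ i ∈ S, (2 * a i + 1) ^ 2 = 4 * ∑ i ∈ S, a i * (a i + 1) + 4 := by
          have e6 : ∑ i ∈ S, (2 * a i + 1) ^ 2 = ∑ i ∈ S, (4 * (a i * (a i + 1)) + 1) :=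
            Finset.sum_congr rfl fun i _ => by ring
          rw [e6, Finset.sum_add_distrib, ← Finset.mul_sum, Finset.sum_const, hS]
          norm_num
        rw [e5, ha, hxq, Finset.sum_const, Finset.sum_const, hS, Finset.card_univ,
          Fintype.card_fin]
        norm_num
        omega
  · -- at least five odd coordinates
    have hO4 : 4 ≤ Od.card := by omega
    obtain ⟨S, hSO, hS⟩ := Finset.exists_subset_card_eq hO4
    have hSodd : ∀ i ∈ S, x i % 2 = 1 := fun i hi => (mOd i).1 (hSO hi)
    obtain ⟨p, hp⟩ : S.Nonempty := by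
      rw [← Finset.card_pos]
      omega
    rcases Nat.even_or_odd' j with ⟨m, hm | hm⟩
    · have hj : (j : ℤ) = 2 * m := by exact_mod_cast hm
      obtain ⟨a, ha⟩ := oddrep S hS hSodd j (by positivity) (by omega)
      have key : ∀ i, ((if i ∈ S then 2 * a i + 1 else x i) - x i) % 2 = 0 := by
        intro i
        by_cases hi : i ∈ S
        · rw [if_pos hi]
          have := hSodd i hi
          omega
        · rw [if_neg hi]
          omega
      obtain ⟨x'', h1, h2⟩ := signFix (x := x) (x' := fun i => if i ∈ S then 2 * a i + 1 else x i)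
        (fun i k => by
          have a := key i
          have b := key k
          omega) (p := p) (by
          rw [if_pos hp]
          omega)
      refine ⟨x'', h1, ?_⟩
      rw [h2, sum_change (fun i => 2 * a i + 1) x (fun z => z ^ 2), ha]
      ring
    · have hj : (j : ℤ) = 2 * m + 1 := by exact_mod_cast hm
      by_cases hE : Ev.Nonempty
      · obtain ⟨r, hr⟩ := hE
        have hre := (mEv r).1 hr
        have hrS : r ∉ S := fun h => by
          have := hSodd r h
          omega
        obtain ⟨z, hz⟩ : ∃ z, x r = 2 * z := ⟨x r / 2, by omega⟩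
        obtain ⟨a, ha⟩ := oddrep S hS hSodd (j - 1 + 2 * |z|) (by
          have := abs_nonneg z
          omega) (by omega)
        set x1 : Fin 8 → ℤ := Function.update x r (2 * (|z| - 1)) with hx1
        have hx1S : ∀ i ∈ S, x1 i = x i := by
          intro i hi
          have hne : i ≠ r := by
            rintro rfl
            exact hrS hi
          rw [hx1, Function.update_of_ne hne]
        have key : ∀ i, ((if i ∈ S then 2 * a i + 1 else x1 i) - x i) % 2 = 0 := by
          intro i
          by_cases hi : i ∈ S
          · rw [if_pos hi]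
            have := hSodd i hi
            omega
          · rw [if_neg hi]
            by_cases hir : i = r
            · rw [hir, hx1, Function.update_self]
              omega
            · rw [hx1, Function.update_of_ne hir]
              omega
        obtain ⟨x'', h1, h2⟩ := signFix (x := x)
          (x' := fun i => if i ∈ S then 2 * a i + 1 else x1 i)
          (fun i k => by
            have a := key i
            have b := key k
            omega) (p := p) (by
            rw [if_pos hp]
            omega)
        refine ⟨x'', h1, ?_⟩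
        rw [h2, sum_change (fun i => 2 * a i + 1) x1 (fun z => z ^ 2), ha]
        have e1 : ∑ i, x1 i ^ 2 = ∑ i, x i ^ 2 + (4 - 8 * |z|) := by
          have e2 : ∑ i, (x1 i ^ 2 - x i ^ 2) = 4 - 8 * |z| := by
            rw [Finset.sum_eq_single r]
            · rw [hx1, Function.update_self, hz]
              have := sq_abs z
              nlinarith
            · intro i _ hi
              rw [hx1, Function.update_of_ne hi]
              ring
            · intro hh
              exact absurd (Finset.mem_univ _) hh
          rw [Finset.sum_sub_distrib] at e2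
          linarith
        have e3 : ∑ i ∈ S, x1 i ^ 2 = ∑ i ∈ S, x i ^ 2 :=
          Finset.sum_congr rfl fun i hi => by rw [hx1S i hi]
        rw [e1, e3]
        ring
      · -- all coordinates odd
        rw [Finset.not_nonempty_iff_eq_empty] at hE
        have hall : ∀ i, x i % 2 = 1 := by
          intro i
          by_contra hcon
          have : i ∈ Ev := (mEv i).2 (by omega)
          rw [hE] at this
          exact absurd this (Finset.notMem_empty _)
        have hsum4 : ¬ (∑ i, x i) % 4 = 0 := fun h => hn ⟨fun i k => by
          have a := hall i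
          have b := hall k
          omega, h⟩
        have hq8 : (∑ i, x i ^ 2) % 8 = 0 := by
          have e1 : ∀ i, ∃ b, x i ^ 2 = 8 * b + 1 := by
            intro i
            have h1 := hall i
            obtain ⟨c, hc⟩ : ∃ c, x i = 2 * c + 1 := ⟨x i / 2, by omega⟩
            obtain ⟨d, hd⟩ := Int.even_iff.2 (mul_succ_even c)
            refine ⟨d, ?_⟩
            rw [hc]
            linear_combination 4 * hd
          choose b hb using e1
          rw [Finset.sum_congr rfl fun i _ => hb i, Finset.sum_add_distrib, ← Finset.mul_sum,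
            Finset.sum_const, Finset.card_univ, Fintype.card_fin]
          norm_num
        have hq0 := sum_sq_nonneg Finset.univ x
        obtain ⟨t, ht⟩ := sq_on hS ((∑ i, x i ^ 2) / 4 + j) (by omega)
        have hp1 := sum_sq_parity S t
        refine ⟨fun i => if i ∈ S then 2 * t i else 0, ⟨fun i k => ?_, ?_⟩, ?_⟩
        · have key : ∀ i, ((if i ∈ S then 2 * t i else 0) - x i) % 2 = 1 := by
            intro i
            have := hall i
            by_cases hi : i ∈ S
            · rw [if_pos hi]
              omega
            · rw [if_neg hi]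
              omega
          have a := key i
          have b := key k
          dsimp only
          omega
        · rw [Finset.sum_sub_distrib, sum_change (fun i => 2 * t i) (fun _ => 0) (fun z => z)]
          have e1 : ∑ i ∈ S, 2 * t i = 2 * ∑ i ∈ S, t i := by rw [Finset.mul_sum]
          rw [e1]
          simp only [Finset.sum_const_zero]
          omega
        · rw [sum_change (fun i => 2 * t i) (fun _ => 0) (fun z => z ^ 2)]
          have e1 : ∑ i ∈ S, (2 * t i) ^ 2 = 4 * ∑ i ∈ S, t i ^ 2 := by
            rw [Finset.mul_sum]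
            exact Finset.sum_congr rfl fun i _ => by ring
          rw [e1, ht]
          have e2 : ∀ T : Finset (Fin 8), ∑ i ∈ T, (0 : ℤ) ^ 2 = 0 := fun T => by simp
          rw [e2, e2]
          omega

end Pool.Agent.X328.CF
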