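import Pool.Agent.X328.CF.E8

/-! # Values of the form of type `D₄` on a coset -/

set_option autoImplicit false

namespace Pool.Agent.X328.CF.D4

open Finset

/-- correction by a change of sign -/
theorem signFix {x x' : Fin 4 → ℤ} (h : ∀ i, (x' i - x i) % 2 = 0) {p : Fin 4}
    (hp : x' p % 2 = 1) : ∃ x'' : Fin 4 → ℤ, (∀ i, (x'' i - x i) % 2 = 0) ∧
      (∑ i, (x'' i - x i)) % 4 = 0 ∧ ∑ i, x'' i ^ 2 = ∑ i, x' i ^ 2 := by
  have h2 : (∑ i, (x' i - x i)) % 2 = 0 :=
    Int.even_iff.1 (Finset.even_sum _ fun i _ => Int.even_iff.2 (h i))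
  by_cases h4 : (∑ i, (x' i - x i)) % 4 = 0
  · exact ⟨x', h, h4, rfl⟩
  · refine ⟨Function.update x' p (-x' p), ?_, ?_, ?_⟩
    · intro i
      have hh := h i
      by_cases hi : i = p
      · subst hi
        rw [Function.update_self]
        omega
      · rw [Function.update_of_ne hi]
        omega
    · have e : ∑ i, ((Function.update x' p (-x' p)) i - x i) =
          ∑ i, (x' i - x i) + (-2 * x' p) := by
        have e1 : ∑ i, ((Function.update x' p (-x' p)) i - x' i) = -2 * x' p := by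
          rw [Finset.sum_eq_single p]
          · rw [Function.update_self]
            ring
          · intro i _ hi
            rw [Function.update_of_ne hi]
            ring
          · intro hh
            exact absurd (Finset.mem_univ _) hh
        rw [← e1, ← Finset.sum_add_distrib]
        exact Finset.sum_congr rfl fun i _ => by ring
      rw [e]
      omega
    · refine Finset.sum_congr rfl fun i _ => ?_
      by_cases hi : i = p
      · subst hi
        rw [Function.update_self]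
        ring
      · rw [Function.update_of_ne hi]

/-- the sum of the squares modulo four -/
theorem sum_sq_mod (n : Fin 4 → ℤ) :
    (∑ i, n i ^ 2 - ((univ.filter fun i => n i % 2 = 1).card : ℤ)) % 4 = 0 := by
  have h1 : ((univ.filter fun i => n i % 2 = 1).card : ℤ) = ∑ i, if n i % 2 = 1 then 1 else 0 := by
    rw [Finset.card_filter]
    push_cast
    rfl
  rw [h1, ← Finset.sum_sub_distrib]
  refine Int.emod_eq_zero_of_dvd (Finset.dvd_sum fun i _ => ?_)
  obtain ⟨m, hm⟩ : ∃ m, n i = 2 * m + n i % 2 := ⟨n i / 2, by omega⟩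
  rcases Int.emod_two_eq_zero_or_one (n i) with h | h
  · rw [h] at hm ⊢
    rw [hm]
    norm_num
    exact ⟨m ^ 2, by ring⟩
  · rw [h] at hm ⊢
    rw [hm]
    norm_num
    exact ⟨m ^ 2 + m, by ring⟩

/-- rearrangement -/
theorem exists_perm (z n : Fin 4 → ℤ) (h : (univ.filter fun i => z i % 2 = 1).card =
    (univ.filter fun i => n i % 2 = 1).card) :
    ∃ σ : Equiv.Perm (Fin 4), ∀ i, (n (σ i) - z i) % 2 = 0 := by
  have hc : Fintype.card {i // z i % 2 = 1} = Fintype.card {i // n i % 2 = 1} := by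
    rw [Fintype.card_subtype, Fintype.card_subtype]
    exact h
  let e := Fintype.equivOfCardEq hc
  refine ⟨e.extendSubtype, fun i => ?_⟩
  by_cases hi : z i % 2 = 1
  · have h1 := e.extendSubtype_mem i hi
    omega
  · have h1 := e.extendSubtype_not_mem i hi
    omega

/-- not all entries have the same parity -/
theorem mixed (z : Fin 4 → ℤ) (h0 : ∃ i, z i % 2 = 0) (h1 : ∃ i, z i % 2 = 1) (j : ℕ) :
    ∃ u : Fin 4 → ℤ, (∑ i, u i) % 2 = 0 ∧ ∑ i, (z i + 2 * u i) ^ 2 = ∑ i, z i ^ 2 + 4 * j := by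
  have hnn : 0 ≤ ∑ i, z i ^ 2 + 4 * (j : ℤ) :=
    add_nonneg (Finset.sum_nonneg fun _ _ => sq_nonneg _) (by positivity)
  obtain ⟨n, hn⟩ := four_sq (∑ i, z i ^ 2 + 4 * (j : ℤ)).toNat
  rw [Int.toNat_of_nonneg hnn] at hn
  have e1 := sum_sq_mod z
  have e2 := sum_sq_mod n
  have hz1 : 0 < (univ.filter fun i => z i % 2 = 1).card := by
    obtain ⟨i, hi⟩ := h1
    exact Finset.card_pos.2 ⟨i, by simpa using hi⟩
  have hz4 : (univ.filter fun i => z i % 2 = 1).card < 4 := by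
    obtain ⟨i, hi⟩ := h0
    have : (univ.filter fun i => z i % 2 = 1) ⊂ (univ : Finset (Fin 4)) := by
      refine Finset.ssubset_iff_subset_ne.2 ⟨Finset.subset_univ _, fun hh => ?_⟩
      have h2 : i ∈ (univ.filter fun i => z i % 2 = 1) := by
        rw [hh]
        exact Finset.mem_univ _
      rw [Finset.mem_filter] at h2
      omega
    have h3 := Finset.card_lt_card this
    simpa using h3
  have hn4 : (univ.filter fun i => n i % 2 = 1).card ≤ 4 := by
    have := Finset.card_le_univ (univ.filter fun i => n i % 2 = 1)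
    simpa using this
  obtain ⟨σ, hσ⟩ := exists_perm z n (by omega)
  obtain ⟨p, hp⟩ := h1
  have hpσ := hσ p
  obtain ⟨x, hx, hx4, hxq⟩ := signFix (x := z) (x' := fun i => n (σ i)) hσ (p := p) (by
    omega)
  have hxu : ∀ i, x i - z i = 2 * ((x i - z i) / 2) := fun i => by
    have := hx i
    omega
  refine ⟨fun i => (x i - z i) / 2, ?_, ?_⟩
  · have h5 : ∑ i, (x i - z i) = 2 * ∑ i, (x i - z i) / 2 := by
      rw [Finset.mul_sum]
      exact Finset.sum_congr rfl fun i _ => hxu i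
    change (∑ i, (x i - z i) / 2) % 2 = 0
    omega
  · have h6 : ∑ i, (z i + 2 * ((x i - z i) / 2)) ^ 2 = ∑ i, x i ^ 2 := by
      refine Finset.sum_congr rfl fun i _ => ?_
      rw [← hxu i]
      ring
    rw [h6, hxq, ← hn]
    exact Equiv.sum_comp σ (fun i => n i ^ 2)

/-- all entries odd, difference eight -/
theorem allodd (z : Fin 4 → ℤ) (h1 : ∀ i, z i % 2 = 1) (j : ℕ) :
    ∃ u : Fin 4 → ℤ, (∑ i, u i) % 2 = 0 ∧ ∑ i, (z i + 2 * u i) ^ 2 = ∑ i, z i ^ 2 + 8 * j := by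
  have e1 : ∑ i, z i ^ 2 = 4 * ∑ i, (z i / 2) * (z i / 2 + 1) + 4 := by
    have e2 : ∑ i, z i ^ 2 = ∑ i, (4 * ((z i / 2) * (z i / 2 + 1)) + 1) := by
      refine Finset.sum_congr rfl fun i _ => ?_
      have h1 := h1 i
      obtain ⟨b, hb⟩ : ∃ b, b = z i / 2 := ⟨_, rfl⟩
      rw [← hb]
      have h2 : z i = 2 * b + 1 := by omega
      rw [h2]
      ring
    rw [e2, Finset.sum_add_distrib, ← Finset.mul_sum, Finset.sum_const, Finset.card_univ,
      Fintype.card_fin]
    norm_num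
  have e3 : (∑ i, (z i / 2) * (z i / 2 + 1)) % 2 = 0 :=
    Int.even_iff.1 (Finset.even_sum _ fun i _ => Int.even_mul_succ_self _)
  have e4 : 0 ≤ ∑ i, (z i / 2) * (z i / 2 + 1) :=
    Finset.sum_nonneg fun i _ => mul_succ_nonneg _
  obtain ⟨a, ha⟩ := four_tri ((∑ i, (z i / 2) * (z i / 2 + 1)) / 2 + j).toNat
  have e5 : ∑ i, (2 * a i + 1) ^ 2 = 4 * ∑ i, a i * (a i + 1) + 4 := by
    have e6 : ∑ i, (2 * a i + 1) ^ 2 = ∑ i, (4 * (a i * (a i + 1)) + 1) :=
      Finset.sum_congr rfl fun i _ => by ring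
    rw [e6, Finset.sum_add_distrib, ← Finset.mul_sum, Finset.sum_const, Finset.card_univ,
      Fintype.card_fin]
    norm_num
  obtain ⟨x, hx, hx4, hxq⟩ := signFix (x := z) (x' := fun i => 2 * a i + 1)
    (fun i => by
      have := h1 i
      omega) (p := 0) (by omega)
  have hxu : ∀ i, x i - z i = 2 * ((x i - z i) / 2) := fun i => by
    have := hx i
    omega
  refine ⟨fun i => (x i - z i) / 2, ?_, ?_⟩
  · have h5 : ∑ i, (x i - z i) = 2 * ∑ i, (x i - z i) / 2 := by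
      rw [Finset.mul_sum]
      exact Finset.sum_congr rfl fun i _ => hxu i
    change (∑ i, (x i - z i) / 2) % 2 = 0
    omega
  · have h6 : ∑ i, (z i + 2 * ((x i - z i) / 2)) ^ 2 = ∑ i, x i ^ 2 := by
      refine Finset.sum_congr rfl fun i _ => ?_
      rw [← hxu i]
      ring
    rw [h6, hxq, e5, ha, e1]
    rw [Int.toNat_of_nonneg (by omega)]
    omega

/-- all entries even, difference eight -/
theorem alleven (z : Fin 4 → ℤ) (h1 : ∀ i, z i % 2 = 0) (j : ℕ) :
    ∃ u : Fin 4 → ℤ, (∑ i, u i) % 2 = 0 ∧ ∑ i, (z i + 2 * u i) ^ 2 = ∑ i, z i ^ 2 + 8 * j := by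
  obtain ⟨y, hy⟩ : ∃ y : Fin 4 → ℤ, ∀ i, z i = 2 * y i := ⟨fun i => z i / 2, fun i => by
    have := h1 i
    dsimp only
    omega⟩
  have hnn : 0 ≤ ∑ i, y i ^ 2 + 2 * (j : ℤ) :=
    add_nonneg (Finset.sum_nonneg fun _ _ => sq_nonneg _) (by positivity)
  obtain ⟨n, hn⟩ := four_sq (∑ i, y i ^ 2 + 2 * (j : ℤ)).toNat
  rw [Int.toNat_of_nonneg hnn] at hn
  have p1 := sum_sq_parity univ n
  have p2 := sum_sq_parity univ y
  refine ⟨fun i => n i - y i, ?_, ?_⟩
  · rw [Finset.sum_sub_distrib]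
    omega
  · have e1 : ∑ i, (z i + 2 * (n i - y i)) ^ 2 = 4 * ∑ i, n i ^ 2 := by
      rw [Finset.mul_sum]
      exact Finset.sum_congr rfl fun i _ => by rw [hy]; ring
    have e2 : ∑ i, z i ^ 2 = 4 * ∑ i, y i ^ 2 := by
      rw [Finset.mul_sum]
      exact Finset.sum_congr rfl fun i _ => by rw [hy]; ring
    rw [e1, e2, hn]
    ring

/-- the fractional coset, all entries odd -/
theorem half (y : Fin 4 → ℤ) (hy : ∀ i, y i % 2 = 1) (j : ℕ) :
    ∃ u : Fin 4 → ℤ, (∑ i, u i) % 2 = 0 ∧ ∑ i, (y i + 4 * u i) ^ 2 = ∑ i, y i ^ 2 + 16 * j := by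
  have hst : ∀ i, ∃ s t : ℤ, (s = 1 ∨ s = -1) ∧ y i = s * (1 + 4 * t) := by
    intro i
    have h1 := hy i
    by_cases h4 : y i % 4 = 1
    · exact ⟨1, y i / 4, Or.inl rfl, by omega⟩
    · exact ⟨-1, (-y i) / 4, Or.inr rfl, by omega⟩
  choose s t hs hyt using hst
  have hs2 : ∀ i, s i ^ 2 = 1 := by
    intro i
    rcases hs i with h | h <;> rw [h] <;> norm_num
  have hT0 : ∀ a : ℤ, 0 ≤ a * (2 * a + 1) := by
    intro a
    rcases le_or_gt 0 a with h | h
    · positivity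
    · nlinarith
  have hS : (univ : Finset (Fin 4)).card = 4 := by simp
  obtain ⟨a, ha⟩ := tri_on hS (∑ i, t i * (2 * t i + 1) + 2 * j)
    (add_nonneg (Finset.sum_nonneg fun i _ => hT0 _) (by positivity))
  have hat : ∀ i, ∃ t' : ℤ, a i * (a i + 1) = 2 * (t' * (2 * t' + 1)) := by
    intro i
    rcases Int.even_or_odd' (a i) with ⟨b, hb | hb⟩
    · exact ⟨b, by rw [hb]; ring⟩
    · exact ⟨-(b + 1), by rw [hb]; ring⟩
  choose t' ht' using hat
  have hsum : ∑ i, t' i * (2 * t' i + 1) = ∑ i, t i * (2 * t i + 1) + 2 * j := by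
    have h1 : ∑ i, a i * (a i + 1) = 2 * ∑ i, t' i * (2 * t' i + 1) := by
      rw [Finset.mul_sum]
      exact Finset.sum_congr rfl fun i _ => ht' i
    rw [ha] at h1
    linarith
  refine ⟨fun i => s i * (t' i - t i), ?_, ?_⟩
  · have h2 : ∑ i, s i * (t' i - t i) =
        2 * j - 2 * ∑ i, (t' i ^ 2 - t i ^ 2 + (1 - s i) / 2 * (t' i - t i)) := by
      have h3 : (2 : ℤ) * j = ∑ i, (t' i * (2 * t' i + 1) - t i * (2 * t i + 1)) := by
        rw [Finset.sum_sub_distrib, hsum]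
        ring
      rw [h3, Finset.mul_sum, ← Finset.sum_sub_distrib]
      refine Finset.sum_congr rfl fun i _ => ?_
      rcases hs i with h | h <;> rw [h] <;> norm_num <;> ring
    rw [h2]
    omega
  · have h1 : ∀ i, (y i + 4 * (s i * (t' i - t i))) ^ 2 =
        y i ^ 2 + 8 * (t' i * (2 * t' i + 1) - t i * (2 * t i + 1)) := by
      intro i
      rw [hyt i]
      linear_combination (8 * (t' i * (2 * t' i + 1) - t i * (2 * t i + 1))) * hs2 i
    rw [Finset.sum_congr rfl fun i _ => h1 i, Finset.sum_add_distrib, ← Finset.mul_sum,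
      Finset.sum_sub_distrib, hsum]
    ring

/-- the quadratic form of `D₄` -/
def qf (c : Fin 4 → ℤ) : ℤ := ∑ i, ∑ j, c i * CartanMatrix.D 4 i j * c j

/-- the coordinates -/
def Y (f : Fin 4 → ℤ) : Fin 4 → ℤ :=
  ![2 * f 0 + 2 * f 1 + f 2 + f 3, 2 * f 1 + f 2 + f 3, f 2 + f 3, f 3 - f 2]

/-- the coefficients of a vector -/
theorem exists_coeff (u : Fin 4 → ℤ) (hu : (∑ i, u i) % 2 = 0) :
    ∃ c : Fin 4 → ℤ, u = ![c 0, c 1 - c 0, c 2 + c 3 - c 1, c 3 - c 2] := by
  rw [Fin.sum_univ_four] at hu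
  refine ⟨![u 0, u 0 + u 1, (u 0 + u 1 + u 2 - u 3) / 2, (u 0 + u 1 + u 2 + u 3) / 2], ?_⟩
  funext i
  fin_cases i
  · rfl
  · show u 1 = u 0 + u 1 - u 0
    ring
  · show u 2 = (u 0 + u 1 + u 2 - u 3) / 2 + (u 0 + u 1 + u 2 + u 3) / 2 - (u 0 + u 1)
    omega
  · show u 3 = (u 0 + u 1 + u 2 + u 3) / 2 - (u 0 + u 1 + u 2 - u 3) / 2
    omega

theorem qf_eq (c : Fin 4 → ℤ) : qf c = 2 * c 0 ^ 2 + 2 * c 1 ^ 2 + 2 * c 2 ^ 2 + 2 * c 3 ^ 2
    - 2 * c 0 * c 1 - 2 * c 1 * c 2 - 2 * c 1 * c 3 := by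
  have hD : CartanMatrix.D 4 = !![2, -1, 0, 0; -1, 2, -1, -1; 0, -1, 2, 0; 0, -1, 0, 2] := by
    decide
  unfold qf
  rw [hD]
  simp only [Fin.sum_univ_four]
  simp [Matrix.cons_val]
  ring

theorem form_eq (f c : Fin 4 → ℤ) :
    16 * (∑ i, c i * f i + qf c) =
      ∑ i, (Y f i + 4 * (![c 0, c 1 - c 0, c 2 + c 3 - c 1, c 3 - c 2] : Fin 4 → ℤ) i) ^ 2
        - ∑ i, Y f i ^ 2 := by
  rw [qf_eq]
  simp only [Fin.sum_univ_four, Y]
  simp [Matrix.cons_val]
  ring

/-- some product is odd: all numbers are values -/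
theorem values_odd (f : Fin 4 → ℤ) (hf : ∃ i, f i % 2 = 1) (j : ℕ) :
    ∃ c : Fin 4 → ℤ, ∑ i, c i * f i + qf c = j := by
  suffices h : ∃ u : Fin 4 → ℤ, (∑ i, u i) % 2 = 0 ∧
      ∑ i, (Y f i + 4 * u i) ^ 2 = ∑ i, Y f i ^ 2 + 16 * j by
    obtain ⟨u, hu, h⟩ := h
    obtain ⟨c, hc⟩ := exists_coeff u hu
    refine ⟨c, ?_⟩
    have h1 := form_eq f c
    rw [← hc, h] at h1
    linarith
  by_cases h23 : (f 2 + f 3) % 2 = 1
  · refine half (Y f) (fun i => ?_) j
    fin_cases i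
    · show (2 * f 0 + 2 * f 1 + f 2 + f 3) % 2 = 1
      omega
    · show (2 * f 1 + f 2 + f 3) % 2 = 1
      omega
    · show (f 2 + f 3) % 2 = 1
      omega
    · show (f 3 - f 2) % 2 = 1
      omega
  · obtain ⟨z, hz⟩ : ∃ z : Fin 4 → ℤ, ∀ i, Y f i = 2 * z i := by
      refine ⟨fun i => Y f i / 2, fun i => ?_⟩
      have : Y f i % 2 = 0 := by
        fin_cases i
        · show (2 * f 0 + 2 * f 1 + f 2 + f 3) % 2 = 0
          omega
        · show (2 * f 1 + f 2 + f 3) % 2 = 0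
          omega
        · show (f 2 + f 3) % 2 = 0
          omega
        · show (f 3 - f 2) % 2 = 0
          omega
      dsimp only
      omega
    have z0 : 2 * f 0 + 2 * f 1 + f 2 + f 3 = 2 * z 0 := hz 0
    have z1 : 2 * f 1 + f 2 + f 3 = 2 * z 1 := hz 1
    have z2 : f 2 + f 3 = 2 * z 2 := hz 2
    have z3 : f 3 - f 2 = 2 * z 3 := hz 3
    obtain ⟨u, hu, h⟩ := mixed z (by
      by_contra hcon
      push Not at hcon
      have a0 := hcon 0
      have a1 := hcon 1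
      have a2 := hcon 2
      have a3 := hcon 3
      obtain ⟨i, hi⟩ := hf
      have b0 : f 0 % 2 = 0 := by omega
      have b1 : f 1 % 2 = 0 := by omega
      have b2 : f 2 % 2 = 0 := by omega
      have b3 : f 3 % 2 = 0 := by omega
      fin_cases i
      · have : f 0 % 2 = 1 := hi
        omega
      · have : f 1 % 2 = 1 := hi
        omega
      · have : f 2 % 2 = 1 := hi
        omega
      · have : f 3 % 2 = 1 := hi
        omega) (by
      by_contra hcon
      push Not at hcon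
      have a0 := hcon 0
      have a1 := hcon 1
      have a2 := hcon 2
      have a3 := hcon 3
      obtain ⟨i, hi⟩ := hf
      have b0 : f 0 % 2 = 0 := by omega
      have b1 : f 1 % 2 = 0 := by omega
      have b2 : f 2 % 2 = 0 := by omega
      have b3 : f 3 % 2 = 0 := by omega
      fin_cases i
      · have : f 0 % 2 = 1 := hi
        omega
      · have : f 1 % 2 = 1 := hi
        omega
      · have : f 2 % 2 = 1 := hi
        omega
      · have : f 3 % 2 = 1 := hi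
        omega) j
    refine ⟨u, hu, ?_⟩
    have e1 : ∑ i, (Y f i + 4 * u i) ^ 2 = 4 * ∑ i, (z i + 2 * u i) ^ 2 := by
      rw [Finset.mul_sum]
      exact Finset.sum_congr rfl fun i _ => by rw [hz]; ring
    have e2 : ∑ i, Y f i ^ 2 = 4 * ∑ i, z i ^ 2 := by
      rw [Finset.mul_sum]
      exact Finset.sum_congr rfl fun i _ => by rw [hz]; ring
    rw [e1, e2, h]
    ring

/-- all products are even: all even numbers are values -/
theorem values_even (f : Fin 4 → ℤ) (hf : ∀ i, f i % 2 = 0) (j : ℕ) :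
    ∃ c : Fin 4 → ℤ, ∑ i, c i * f i + qf c = 2 * j := by
  have f0 := hf 0
  have f1 := hf 1
  have f2 := hf 2
  have f3 := hf 3
  obtain ⟨z, hz⟩ : ∃ z : Fin 4 → ℤ, ∀ i, Y f i = 2 * z i := by
    refine ⟨fun i => Y f i / 2, fun i => ?_⟩
    have : Y f i % 2 = 0 := by
      fin_cases i
      · show (2 * f 0 + 2 * f 1 + f 2 + f 3) % 2 = 0
        omega
      · show (2 * f 1 + f 2 + f 3) % 2 = 0
        omega
      · show (f 2 + f 3) % 2 = 0
        omega
      · show (f 3 - f 2) % 2 = 0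
        omega
    dsimp only
    omega
  have z0 : 2 * f 0 + 2 * f 1 + f 2 + f 3 = 2 * z 0 := hz 0
  have z1 : 2 * f 1 + f 2 + f 3 = 2 * z 1 := hz 1
  have z2 : f 2 + f 3 = 2 * z 2 := hz 2
  have z3 : f 3 - f 2 = 2 * z 3 := hz 3
  obtain ⟨u, hu, h⟩ : ∃ u : Fin 4 → ℤ, (∑ i, u i) % 2 = 0 ∧
      ∑ i, (z i + 2 * u i) ^ 2 = ∑ i, z i ^ 2 + 8 * j := by
    by_cases h : z 0 % 2 = 1
    · refine allodd z (fun i => ?_) j
      fin_cases i
      · exact h
      · show z 1 % 2 = 1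
        omega
      · show z 2 % 2 = 1
        omega
      · show z 3 % 2 = 1
        omega
    · refine alleven z (fun i => ?_) j
      fin_cases i
      · show z 0 % 2 = 0
        omega
      · show z 1 % 2 = 0
        omega
      · show z 2 % 2 = 0
        omega
      · show z 3 % 2 = 0
        omega
  obtain ⟨c, hc⟩ := exists_coeff u hu
  refine ⟨c, ?_⟩
  have h1 := form_eq f c
  have e1 : ∑ i, (Y f i + 4 * u i) ^ 2 = 4 * ∑ i, (z i + 2 * u i) ^ 2 := by
    rw [Finset.mul_sum]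
    exact Finset.sum_congr rfl fun i _ => by rw [hz]; ring
  have e2 : ∑ i, Y f i ^ 2 = 4 * ∑ i, z i ^ 2 := by
    rw [Finset.mul_sum]
    exact Finset.sum_congr rfl fun i _ => by rw [hz]; ring
  rw [← hc, e1, e2, h] at h1
  linarith

end Pool.Agent.X328.CF.D4
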