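import Pool.Agent.X328.CF.Prog
import Pool.Agent.X328.CF.D4

/-! # Discriminants of the Hodge classes of cubic fourfolds with a sublattice `D₄(2)` -/

set_option autoImplicit false

namespace Pool.Agent.X328.CF.D4

open Finset Pool.Agent.Y95.Q Pool.Agent.Y95.Q.H4

/-- `X` is in the Hassett divisor `C_d`: there is a Hodge class `v` such that `h` and `v` span a
saturated group of discriminant `d`. -/
def InDivisor {X : CubicFourfold} (H : H4 X) (d : ℤ) : Prop :=
  ∃ v, H.IsHodge v ∧ H.Saturated v ∧ H.disc v = d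

/-- The classes `s i` are primitive Hodge classes and their matrix of products is `2 C`. -/
structure Spans {X : CubicFourfold} (H : H4 X) {n : ℕ} (C : Matrix (Fin n) (Fin n) ℤ)
    (s : Fin n → Fin 23 → ℤ) : Prop where
  hodge : ∀ i, H.IsHodge (s i)
  primitive : ∀ i, H.ip (s i) H.h = 0
  gram : ∀ i j, H.ip (s i) (s j) = 2 * C i j

/-- a lattice `D₄(2)` -/
abbrev IsD4 {X : CubicFourfold} (H : H4 X) (s : Fin 4 → Fin 23 → ℤ) : Prop :=
  Spans H (CartanMatrix.D 4) s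

variable {X : CubicFourfold} {H : H4 X}

theorem disc_add (hH : H.IsCohomology) {s : Fin 4 → Fin 23 → ℤ} (hs : IsD4 H s)
    (v : Fin 23 → ℤ) (c : Fin 4 → ℤ) :
    H.disc (v + ∑ i, c i • s i) = H.disc v + 6 * (∑ i, c i * H.ip (s i) v + qf c) := by
  have h1 : H.ip (∑ i, c i • s i) v = ∑ i, c i * H.ip (s i) v := by
    rw [ip_sum_left]
    exact Finset.sum_congr rfl fun i _ => ip_smul_left _ _ _ _
  have h2 : H.ip (∑ i, c i • s i) (∑ i, c i • s i) = 2 * qf c := by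
    rw [ip_sum_left]
    unfold qf
    rw [Finset.mul_sum]
    refine Finset.sum_congr rfl fun i _ => ?_
    rw [ip_sum_right, Finset.mul_sum]
    refine Finset.sum_congr rfl fun j _ => ?_
    rw [ip_smul_left, ip_smul_right, hs.gram]
    ring
  have h3 : H.ip H.h (∑ i, c i • s i) = 0 := by
    rw [ip_sum_right]
    refine Finset.sum_eq_zero fun i _ => ?_
    rw [ip_smul_right, hH.comm, hs.primitive, mul_zero]
  simp only [disc, ip_add_left, ip_add_right, h2, h3, h1, hH.comm v (∑ i, c i • s i)]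
  ring

theorem hodge_add {s : Fin 4 → Fin 23 → ℤ} (hs : IsD4 H s) {v : Fin 23 → ℤ}
    (hv : H.IsHodge v) (c : Fin 4 → ℤ) : H.IsHodge (v + ∑ i, c i • s i) :=
  H.isHodge_add hv (H.isHodge_sum _ _ fun i _ => H.isHodge_smul _ (hs.hodge i))

/-- the progression of difference six -/
theorem prog_odd (hH : H.IsCohomology) {s : Fin 4 → Fin 23 → ℤ} (hs : IsD4 H s)
    {v : Fin 23 → ℤ} (hv : H.IsHodge v) (hodd : ∃ i, Odd (H.ip (s i) v)) (j : ℕ) :
    ∃ w, H.IsHodge w ∧ H.disc w = H.disc v + 6 * j := by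
  obtain ⟨i, hi⟩ := hodd
  obtain ⟨c, hc⟩ := values_odd (fun i => H.ip (s i) v) ⟨i, Int.odd_iff.1 hi⟩ j
  refine ⟨v + ∑ i, c i • s i, hodge_add hs hv c, ?_⟩
  rw [disc_add hH hs, hc]

/-- the progression of difference twelve -/
theorem prog_even (hH : H.IsCohomology) {s : Fin 4 → Fin 23 → ℤ} (hs : IsD4 H s)
    {v : Fin 23 → ℤ} (hv : H.IsHodge v) (hev : ∀ i, Even (H.ip (s i) v)) (j : ℕ) :
    ∃ w, H.IsHodge w ∧ H.disc w = H.disc v + 12 * j := by
  obtain ⟨c, hc⟩ := values_even (fun i => H.ip (s i) v) (fun i => Int.even_iff.1 (hev i)) j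
  refine ⟨v + ∑ i, c i • s i, hodge_add hs hv c, ?_⟩
  rw [disc_add hH hs, hc]
  ring

/-- **All large numbers in the class modulo twelve are discriminants.** -/
theorem prog (hH : H.IsCohomology) {s : Fin 4 → Fin 23 → ℤ} (hs : IsD4 H s)
    {v : Fin 23 → ℤ} (hv : H.IsHodge v) {D : ℤ} (hD : H.disc v ≤ D) (h12 : 12 ∣ D - H.disc v) :
    ∃ w, H.IsHodge w ∧ H.disc w = D := by
  by_cases hev : ∀ i, Even (H.ip (s i) v)
  · obtain ⟨w, hw, hd⟩ := prog_even hH hs hv hev ((D - H.disc v) / 12).toNat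
    refine ⟨w, hw, ?_⟩
    rw [hd, Int.toNat_of_nonneg (by omega)]
    omega
  · push Not at hev
    obtain ⟨i, hi⟩ := hev
    obtain ⟨w, hw, hd⟩ := prog_odd hH hs hv ⟨i, Int.not_even_iff_odd.1 hi⟩
      ((D - H.disc v) / 6).toNat
    refine ⟨w, hw, ?_⟩
    rw [hd, Int.toNat_of_nonneg (by omega)]
    omega

/-- **Associated K3 surfaces.** -/
theorem hasK3 (hH : H.IsCohomology) {s : Fin 4 → Fin 23 → ℤ} (hs : IsD4 H s)
    {v : Fin 23 → ℤ} (hv : H.IsHodge v) (h4 : ¬ 4 ∣ H.disc v) :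
    ∃ d, Admissible d ∧ InDivisor H d := by
  have h0 := disc_nonneg hH hv
  have h2 := disc_even hH v
  have h3 := disc_mod_three (H := H) v
  obtain ⟨p, hp, hgt, hmod⟩ := Nat.exists_prime_gt_modEq_one (k := 6) ((H.disc v).toNat + 3)
    (by norm_num)
  have hp6 : p % 6 = 1 := hmod
  have hpd : H.disc v + 3 < p := by
    have : (((H.disc v).toNat + 3 : ℕ) : ℤ) < p := by exact_mod_cast hgt
    push_cast at this
    rw [Int.toNat_of_nonneg h0] at this
    exact this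
  obtain ⟨ha2, ha6⟩ := admissible_of_prime hp hp6 (by omega)
  have hfin : ∀ D : ℤ, Admissible D → Squarefree D → H.disc v ≤ D → 12 ∣ D - H.disc v →
      ∃ d, Admissible d ∧ InDivisor H d := by
    intro D hA hS hD h12
    obtain ⟨w, hw, hd⟩ := prog hH hs hv hD h12
    obtain ⟨w', hw', hsat, hd'⟩ := sat_of_squarefree hH hw (by rw [hd]; have := hA.1; omega)
      (by rw [hd]; exact hS)
    exact ⟨D, hA, w', hw', hsat, by rw [hd', hd]⟩
  by_cases hcase : H.disc v % 12 = 2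
  · refine hfin (2 * p) ha2 ?_ (by omega) (by omega)
    have h5 : Squarefree (2 * p) := by
      rw [Nat.squarefree_mul_iff]
      refine ⟨?_, Nat.prime_two.squarefree, hp.squarefree⟩
      rw [Nat.coprime_primes Nat.prime_two hp]
      omega
    have h6 := Int.squarefree_natCast.2 h5
    exact_mod_cast h6
  · refine hfin (6 * p) ha6 ?_ (by omega) (by omega)
    have h5 : Squarefree (6 * p) := by
      rw [Nat.squarefree_mul_iff]
      refine ⟨?_, ?_, hp.squarefree⟩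
      · rw [Nat.coprime_comm, hp.coprime_iff_not_dvd]
        intro hd
        have := Nat.le_of_dvd (by norm_num) hd
        interval_cases p <;> omega
      · have : (6 : ℕ) = 2 * 3 := rfl
        rw [this, Nat.squarefree_mul_iff]
        exact ⟨by norm_num, Nat.prime_two.squarefree, Nat.prime_three.squarefree⟩
    have h6 := Int.squarefree_natCast.2 h5
    exact_mod_cast h6

/-- **Hilbert squares.** -/
theorem hilbert (hH : H.IsCohomology) {s : Fin 4 → Fin 23 → ℤ} (hs : IsD4 H s)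
    {v : Fin 23 → ℤ} (hv : H.IsHodge v) (h4 : ¬ 4 ∣ H.disc v) :
    ∃ d, (∃ a n : ℤ, a ^ 2 * d = 2 * n ^ 2 + 2 * n + 2) ∧ InDivisor H d := by
  have h0 := disc_nonneg hH hv
  have h2 := disc_even hH v
  have h3 := disc_mod_three (H := H) v
  obtain ⟨n, hn0, hn12⟩ : ∃ n : ℤ, H.disc v ≤ 2 * n ^ 2 + 2 * n + 2 ∧
      12 ∣ 2 * n ^ 2 + 2 * n + 2 - H.disc v := by
    obtain ⟨q, hq⟩ : ∃ q, H.disc v = 4 * q + 2 := ⟨(H.disc v - 2) / 4, by omega⟩
    by_cases hcase : H.disc v % 12 = 2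
    · obtain ⟨m, hm⟩ : ∃ m, H.disc v = 12 * m + 2 := ⟨(H.disc v - 2) / 12, by omega⟩
      refine ⟨3 * H.disc v, by nlinarith, ?_⟩
      obtain ⟨b, hb⟩ := Int.even_mul_succ_self (H.disc v)
      rw [hm]
      have e : 2 * (3 * (12 * m + 2)) ^ 2 + 2 * (3 * (12 * m + 2)) + 2 - (12 * m + 2) =
          12 * (216 * m ^ 2 + 77 * m + 7) := by ring
      rw [e]
      exact Dvd.intro _ rfl
    · obtain ⟨m, hm⟩ : ∃ m, H.disc v = 12 * m + 6 := ⟨(H.disc v - 6) / 12, by omega⟩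
      refine ⟨3 * H.disc v + 1, by nlinarith, ?_⟩
      rw [hm]
      have e : 2 * (3 * (12 * m + 6) + 1) ^ 2 + 2 * (3 * (12 * m + 6) + 1) + 2 - (12 * m + 6) =
          12 * (216 * m ^ 2 + 233 * m + 63) := by ring
      rw [e]
      exact Dvd.intro _ rfl
  obtain ⟨w, hw, hd⟩ := prog hH hs hv hn0 hn12
  have hpos : 0 < H.disc w := by
    rw [hd]
    nlinarith [sq_nonneg (2 * n + 1)]
  obtain ⟨u, m, hm, hu, hsat, hud⟩ := exists_sat hH hw hpos
  exact ⟨H.disc u, ⟨m, n, by rw [← hud, hd]⟩, u, hu, hsat, rfl⟩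

theorem sqf (d : ℤ) (h : d = 14 ∨ d = 26 ∨ d = 38 ∨ d = 42) : Squarefree d := by
  have h2p : ∀ p : ℕ, p.Prime → 2 < p → Squarefree (2 * p) := fun p hp h2 =>
    Nat.squarefree_mul_iff.2 ⟨(Nat.coprime_primes Nat.prime_two hp).2 (by omega),
      Nat.prime_two.squarefree, hp.squarefree⟩
  have h42 : Squarefree (2 * (3 * 7)) :=
    Nat.squarefree_mul_iff.2 ⟨by norm_num, Nat.prime_two.squarefree,
      Nat.squarefree_mul_iff.2 ⟨by norm_num, Nat.prime_three.squarefree,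
        (by norm_num : Nat.Prime 7).squarefree⟩⟩
  rcases h with rfl | rfl | rfl | rfl
  · exact Int.squarefree_natCast.2 (h2p 7 (by norm_num) (by norm_num))
  · exact Int.squarefree_natCast.2 (h2p 13 (by norm_num) (by norm_num))
  · exact Int.squarefree_natCast.2 (h2p 19 (by norm_num) (by norm_num))
  · exact Int.squarefree_natCast.2 h42

/-- a squarefree discriminant -/
theorem inDivisor_of_disc (hH : H.IsCohomology) {w : Fin 23 → ℤ} (hw : H.IsHodge w) {d : ℤ}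
    (hsq : Squarefree d) (hd : H.disc w = d) : InDivisor H d := by
  have h0 := disc_nonneg hH hw
  have h1 : d ≠ 0 := hsq.ne_zero
  obtain ⟨u, hu, hsat, hud⟩ := sat_of_squarefree hH hw (by omega) (by rw [hd]; exact hsq)
  exact ⟨u, hu, hsat, by rw [hud, hd]⟩

/-- squarefree discriminants -/
theorem key (hH : H.IsCohomology) {s : Fin 4 → Fin 23 → ℤ} (hs : IsD4 H s)
    {v : Fin 23 → ℤ} (hv : H.IsHodge v) (hodd : ∃ i, Odd (H.ip v (s i))) (d : ℤ)
    (hsq : Squarefree d) (hd : H.disc v ≤ d) (h6 : 6 ∣ d - H.disc v) : InDivisor H d := by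
  obtain ⟨i, hi⟩ := hodd
  rw [hH.comm] at hi
  obtain ⟨w, hw, hwd⟩ := prog_odd hH hs hv ⟨i, hi⟩ ((d - H.disc v) / 6).toNat
  refine inDivisor_of_disc hH hw hsq ?_
  rw [hwd, Int.toNat_of_nonneg (by omega)]
  omega

/-- classes with discriminant at most `42` -/
theorem small (hH : H.IsCohomology) {s : Fin 4 → Fin 23 → ℤ} (hs : IsD4 H s)
    {v : Fin 23 → ℤ} (hv : H.IsHodge v) (hsat : H.Saturated v) (h42 : H.disc v ≤ 42)
    (h4 : ¬ 4 ∣ H.disc v) : ∃ d, (d = 14 ∨ d = 26 ∨ d = 38 ∨ d = 42) ∧ InDivisor H d := by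
  have h0 := disc_nonneg hH hv
  have h2 := disc_even hH v
  have h3 := disc_mod_three (H := H) v
  have h6 := hH.six_lt hv (by omega)
  by_cases h14 : H.disc v = 14 ∨ H.disc v = 26 ∨ H.disc v = 38 ∨ H.disc v = 42
  · exact ⟨_, h14, v, hv, hsat, rfl⟩
  · obtain ⟨w, hw, hwd⟩ := prog hH hs hv (D := 42) h42 (by omega)
    exact ⟨42, by norm_num, inDivisor_of_disc hH hw (sqf 42 (by norm_num)) hwd⟩

/-- a class with an odd product -/
theorem small_odd (hH : H.IsCohomology) {s : Fin 4 → Fin 23 → ℤ} (hs : IsD4 H s)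
    {v : Fin 23 → ℤ} (hv : H.IsHodge v) (hodd : ∃ i, Odd (H.ip v (s i))) (h42 : H.disc v ≤ 42) :
    ∃ d, (d = 38 ∨ d = 42) ∧ InDivisor H d := by
  have h2 := disc_even hH v
  rcases disc_mod_three (H := H) v with h3 | h3
  · exact ⟨42, Or.inr rfl, key hH hs hv hodd 42 (sqf 42 (by norm_num)) h42 (by omega)⟩
  · exact ⟨38, Or.inl rfl, key hH hs hv hodd 38 (sqf 38 (by norm_num)) (by omega) (by omega)⟩

/-- a class with an odd product and a discriminant which is not divisible by four -/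
theorem exists_not_four (hH : H.IsCohomology) {s : Fin 4 → Fin 23 → ℤ} (hs : IsD4 H s)
    {v : Fin 23 → ℤ} (hv : H.IsHodge v) (hodd : ∃ i, Odd (H.ip v (s i))) :
    ∃ w, H.IsHodge w ∧ ¬ 4 ∣ H.disc w := by
  have h2 := disc_even hH v
  obtain ⟨i, hi⟩ := hodd
  rw [hH.comm] at hi
  obtain ⟨j, hj⟩ : ∃ j : ℕ, ¬ 4 ∣ H.disc v + 6 * (j : ℤ) := by
    by_cases h4 : 4 ∣ H.disc v
    · exact ⟨1, by push_cast; omega⟩
    · exact ⟨0, by push_cast; omega⟩
  obtain ⟨w, hw, hwd⟩ := prog_odd hH hs hv ⟨i, hi⟩ j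
  exact ⟨w, hw, by rw [hwd]; exact hj⟩

end Pool.Agent.X328.CF.D4
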