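import Pool.Agent.X328.CF.D4Prog

/-! # Sublattices `D₄(2)` of the lattices `E₆(2)`, `E₈(2)` and `D₉(2)` -/

set_option autoImplicit false

namespace Pool.Agent.X328.CF.D4

open Finset Pool.Agent.Y95.Q Pool.Agent.Y95.Q.H4

variable {X : CubicFourfold} {H : H4 X}

/-- a sublattice -/
theorem Spans.sub {n : ℕ} {C : Matrix (Fin n) (Fin n) ℤ} {s : Fin n → Fin 23 → ℤ}
    (hs : Spans H C s) (M : Matrix (Fin 4) (Fin n) ℤ)
    (hM : M * C * M.transpose = CartanMatrix.D 4) : IsD4 H (fun k => ∑ i, M k i • s i) where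
  hodge k := H.isHodge_sum _ _ fun i _ => H.isHodge_smul _ (hs.hodge i)
  primitive k := by
    rw [ip_sum_left]
    refine Finset.sum_eq_zero fun i _ => ?_
    rw [ip_smul_left, hs.primitive, mul_zero]
  gram k l := by
    have h1 : H.ip (∑ i, M k i • s i) (∑ j, M l j • s j) =
        ∑ i, ∑ j, M k i * (M l j * (2 * C i j)) := by
      rw [ip_sum_left]
      refine Finset.sum_congr rfl fun i _ => ?_
      rw [ip_sum_right]
      refine Finset.sum_congr rfl fun j _ => ?_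
      rw [ip_smul_left, ip_smul_right, hs.gram]
    have h2 : (M * C * M.transpose) k l = ∑ j, ∑ i, M k i * C i j * M l j := by
      rw [Matrix.mul_apply]
      refine Finset.sum_congr rfl fun j _ => ?_
      rw [Matrix.mul_apply, Finset.sum_mul]
      rfl
    rw [h1, ← hM, h2, Finset.sum_comm, Finset.mul_sum]
    refine Finset.sum_congr rfl fun j _ => ?_
    rw [Finset.mul_sum]
    exact Finset.sum_congr rfl fun i _ => by ring

/-- some class of the sublattice has an odd product with `v` -/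
theorem odd_sub {n : ℕ} {s : Fin n → Fin 23 → ℤ} (M : Matrix (Fin 4) (Fin n) ℤ)
    {v : Fin 23 → ℤ} (k : Fin 4) (h : Odd (∑ i, M k i * H.ip v (s i))) :
    ∃ k, Odd (H.ip v (∑ i, M k i • s i)) := by
  refine ⟨k, ?_⟩
  rw [ip_sum_right]
  rw [Finset.sum_congr rfl fun i _ => ip_smul_right _ _ _ _]
  exact h

def m6 : Matrix (Fin 4) (Fin 6) ℤ :=
  !![0, 1, 0, 0, 0, 0; 0, 0, 0, 1, 0, 0; 0, 0, 1, 0, 0, 0; 0, 0, 0, 0, 1, 0]
def m6' : Matrix (Fin 4) (Fin 6) ℤ :=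
  !![0, 1, 0, 0, 0, 0; 0, 0, 0, 1, 0, 0; 1, 0, 1, 0, 0, 0; 0, 0, 0, 0, 1, 1]

theorem m6_eq : m6 * CartanMatrix.E₆ * m6.transpose = CartanMatrix.D 4 := by decide
theorem m6'_eq : m6' * CartanMatrix.E₆ * m6'.transpose = CartanMatrix.D 4 := by decide

/-- lattices `E₆(2)` -/
theorem e6_odd {s : Fin 6 → Fin 23 → ℤ} (hs : Spans H CartanMatrix.E₆ s) {v : Fin 23 → ℤ}
    (hv : ∃ i, Odd (H.ip v (s i))) : ∃ r, IsD4 H r ∧ ∃ k, Odd (H.ip v (r k)) := by
  by_cases h : ∃ k, Odd (∑ i, m6 k i * H.ip v (s i))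
  · obtain ⟨k, hk⟩ := h
    exact ⟨_, hs.sub m6 m6_eq, odd_sub m6 k hk⟩
  · by_cases h' : ∃ k, Odd (∑ i, m6' k i * H.ip v (s i))
    · obtain ⟨k, hk⟩ := h'
      exact ⟨_, hs.sub m6' m6'_eq, odd_sub m6' k hk⟩
    · exfalso
      push Not at h h'
      obtain ⟨i, hi⟩ := hv
      have a0 := h 0
      have a1 := h 1
      have a2 := h 2
      have a3 := h 3
      have b2 := h' 2
      have b3 := h' 3
      simp only [m6, m6', Fin.sum_univ_six] at a0 a1 a2 a3 b2 b3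
      simp [Matrix.cons_val] at a0 a1 a2 a3 b2 b3
      rw [Int.even_iff] at a0 a1 a2 a3 b2 b3
      rw [Int.odd_iff] at hi
      have c0 : H.ip v (s 0) % 2 = 0 := by omega
      have c5 : H.ip v (s 5) % 2 = 0 := by omega
      fin_cases i
      · exact absurd (c0.symm.trans hi) (by norm_num)
      · exact absurd (a0.symm.trans hi) (by norm_num)
      · exact absurd (a2.symm.trans hi) (by norm_num)
      · exact absurd (a1.symm.trans hi) (by norm_num)
      · exact absurd (a3.symm.trans hi) (by norm_num)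
      · exact absurd (c5.symm.trans hi) (by norm_num)

def m8 (a b c d : ℤ) : Matrix (Fin 4) (Fin 8) ℤ :=
  !![0, 1, 0, 0, 0, 0, 0, 0; 0, 0, 0, 1, 0, 0, 0, 0; a, 0, 1, 0, 0, 0, 0, 0;
    0, 0, 0, 0, 1, b, c, d]

theorem m8_eq0 : m8 0 0 0 0 * CartanMatrix.E₈ * (m8 0 0 0 0).transpose = CartanMatrix.D 4 := by
  decide
theorem m8_eq1 : m8 1 1 0 0 * CartanMatrix.E₈ * (m8 1 1 0 0).transpose = CartanMatrix.D 4 := by
  decide
theorem m8_eq2 : m8 0 1 1 0 * CartanMatrix.E₈ * (m8 0 1 1 0).transpose = CartanMatrix.D 4 := by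
  decide
theorem m8_eq3 : m8 0 1 1 1 * CartanMatrix.E₈ * (m8 0 1 1 1).transpose = CartanMatrix.D 4 := by
  decide

/-- lattices `E₈(2)` -/
theorem e8_odd {s : Fin 8 → Fin 23 → ℤ} (hs : Spans H CartanMatrix.E₈ s) {v : Fin 23 → ℤ}
    (hv : ∃ i, Odd (H.ip v (s i))) : ∃ r, IsD4 H r ∧ ∃ k, Odd (H.ip v (r k)) := by
  by_contra hcon
  push Not at hcon
  have key : ∀ M : Matrix (Fin 4) (Fin 8) ℤ,
      M * CartanMatrix.E₈ * M.transpose = CartanMatrix.D 4 →
      ∀ k, Even (∑ i, M k i * H.ip v (s i)) := by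
    intro M hM k
    by_contra hk
    rw [Int.not_even_iff_odd] at hk
    obtain ⟨l, hl⟩ := odd_sub M k hk
    exact hcon _ (hs.sub M hM) l hl
  obtain ⟨i, hi⟩ := hv
  have a0 := key _ m8_eq0 0
  have a1 := key _ m8_eq0 1
  have a2 := key _ m8_eq0 2
  have a3 := key _ m8_eq0 3
  have b2 := key _ m8_eq1 2
  have b3 := key _ m8_eq1 3
  have c3 := key _ m8_eq2 3
  have d3 := key _ m8_eq3 3
  simp only [m8, Fin.sum_univ_eight] at a0 a1 a2 a3 b2 b3 c3 d3
  simp [Matrix.cons_val] at a0 a1 a2 a3 b2 b3 c3 d3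
  rw [Int.even_iff] at a0 a1 a2 a3 b2 b3 c3 d3
  rw [Int.odd_iff] at hi
  have e0 : H.ip v (s 0) % 2 = 0 := by omega
  have e5 : H.ip v (s 5) % 2 = 0 := by omega
  have e6 : H.ip v (s 6) % 2 = 0 := by omega
  have e7 : H.ip v (s 7) % 2 = 0 := by omega
  fin_cases i
  · exact absurd (e0.symm.trans hi) (by norm_num)
  · exact absurd (a0.symm.trans hi) (by norm_num)
  · exact absurd (a2.symm.trans hi) (by norm_num)
  · exact absurd (a1.symm.trans hi) (by norm_num)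
  · exact absurd (a3.symm.trans hi) (by norm_num)
  · exact absurd (e5.symm.trans hi) (by norm_num)
  · exact absurd (e6.symm.trans hi) (by norm_num)
  · exact absurd (e7.symm.trans hi) (by norm_num)

def m9 (a0 a1 a2 a3 a4 : ℤ) : Matrix (Fin 4) (Fin 9) ℤ :=
  !![a0, a1, a2, a3, a4, 1, 0, 0, 0; 0, 0, 0, 0, 0, 0, 1, 0, 0; 0, 0, 0, 0, 0, 0, 0, 1, 0;
    0, 0, 0, 0, 0, 0, 0, 0, 1]

theorem m9_eq0 : m9 0 0 0 0 0 * CartanMatrix.D 9 * (m9 0 0 0 0 0).transpose = CartanMatrix.D 4 := by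
  decide
theorem m9_eq1 : m9 0 0 0 0 1 * CartanMatrix.D 9 * (m9 0 0 0 0 1).transpose = CartanMatrix.D 4 := by
  decide
theorem m9_eq2 : m9 0 0 0 1 1 * CartanMatrix.D 9 * (m9 0 0 0 1 1).transpose = CartanMatrix.D 4 := by
  decide
theorem m9_eq3 : m9 0 0 1 1 1 * CartanMatrix.D 9 * (m9 0 0 1 1 1).transpose = CartanMatrix.D 4 := by
  decide
theorem m9_eq4 : m9 0 1 1 1 1 * CartanMatrix.D 9 * (m9 0 1 1 1 1).transpose = CartanMatrix.D 4 := by
  decide
theorem m9_eq5 : m9 1 1 1 1 1 * CartanMatrix.D 9 * (m9 1 1 1 1 1).transpose = CartanMatrix.D 4 := by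
  decide

/-- lattices `D₉(2)` -/
theorem d9_odd {s : Fin 9 → Fin 23 → ℤ} (hs : Spans H (CartanMatrix.D 9) s) {v : Fin 23 → ℤ}
    (hv : ∃ i, Odd (H.ip v (s i))) : ∃ r, IsD4 H r ∧ ∃ k, Odd (H.ip v (r k)) := by
  by_contra hcon
  push Not at hcon
  have key : ∀ M : Matrix (Fin 4) (Fin 9) ℤ,
      M * CartanMatrix.D 9 * M.transpose = CartanMatrix.D 4 →
      ∀ k, Even (∑ i, M k i * H.ip v (s i)) := by
    intro M hM k
    by_contra hk
    rw [Int.not_even_iff_odd] at hk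
    obtain ⟨l, hl⟩ := odd_sub M k hk
    exact hcon _ (hs.sub M hM) l hl
  obtain ⟨i, hi⟩ := hv
  have a0 := key _ m9_eq0 0
  have a1 := key _ m9_eq0 1
  have a2 := key _ m9_eq0 2
  have a3 := key _ m9_eq0 3
  have b1 := key _ m9_eq1 0
  have b2 := key _ m9_eq2 0
  have b3 := key _ m9_eq3 0
  have b4 := key _ m9_eq4 0
  have b5 := key _ m9_eq5 0
  simp only [m9, Fin.sum_univ_succ] at a0 a1 a2 a3 b1 b2 b3 b4 b5
  simp [Matrix.cons_val, Fin.succ] at a0 a1 a2 a3 b1 b2 b3 b4 b5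
  rw [Int.even_iff] at a0 a1 a2 a3 b1 b2 b3 b4 b5
  rw [Int.odd_iff] at hi
  have e4 : H.ip v (s 4) % 2 = 0 := by omega
  have e3 : H.ip v (s 3) % 2 = 0 := by omega
  have e2 : H.ip v (s 2) % 2 = 0 := by omega
  have e1 : H.ip v (s 1) % 2 = 0 := by omega
  have e0 : H.ip v (s 0) % 2 = 0 := by omega
  fin_cases i
  · exact absurd (e0.symm.trans hi) (by norm_num)
  · exact absurd (e1.symm.trans hi) (by norm_num)
  · exact absurd (e2.symm.trans hi) (by norm_num)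
  · exact absurd (e3.symm.trans hi) (by norm_num)
  · exact absurd (e4.symm.trans hi) (by norm_num)
  · exact absurd (a0.symm.trans hi) (by norm_num)
  · exact absurd (a1.symm.trans hi) (by norm_num)
  · exact absurd (a2.symm.trans hi) (by norm_num)
  · exact absurd (a3.symm.trans hi) (by norm_num)

/-- the lattice `D₄(2)` defined by a plane and four planes which meet it in lines -/
theorem isD4_planes (hH : H.IsCohomology) {P : Fin 23 → ℤ} {Q : Fin 4 → Fin 23 → ℤ}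
    (hP : H.IsHodge P ∧ H.ip P H.h = 1 ∧ H.ip P P = 3)
    (hd : ∀ i, H.IsHodge (Q i) ∧ H.ip (Q i) H.h = 1 ∧ H.ip (Q i) (Q i) = 3)
    (h1 : ∀ i, H.ip P (Q i) = -1) (h2 : ∀ i j, i ≠ j → H.ip (Q i) (Q j) = 1) :
    IsD4 H ![Q 0 - Q 1, Q 1 - Q 2, Q 2 - Q 3, Q 2 + Q 3 + P - H.h] := by
  have h1' : ∀ i, H.ip (Q i) P = -1 := fun i => by rw [hH.comm, h1]
  have h3 : ∀ i, H.ip H.h (Q i) = 1 := fun i => by rw [hH.comm, (hd i).2.1]
  have h3' : H.ip H.h P = 1 := by rw [hH.comm, hP.2.1]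
  have e01 := h2 0 1 (by decide)
  have e02 := h2 0 2 (by decide)
  have e03 := h2 0 3 (by decide)
  have e12 := h2 1 2 (by decide)
  have e13 := h2 1 3 (by decide)
  have e23 := h2 2 3 (by decide)
  have e10 := h2 1 0 (by decide)
  have e20 := h2 2 0 (by decide)
  have e30 := h2 3 0 (by decide)
  have e21 := h2 2 1 (by decide)
  have e31 := h2 3 1 (by decide)
  have e32 := h2 3 2 (by decide)
  have hD : CartanMatrix.D 4 = !![2, -1, 0, 0; -1, 2, -1, -1; 0, -1, 2, 0; 0, -1, 0, 2] := by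
    decide
  refine ⟨fun i => ?_, fun i => ?_, fun i j => ?_⟩
  · fin_cases i
    · exact H.isHodge_sub (hd 0).1 (hd 1).1
    · exact H.isHodge_sub (hd 1).1 (hd 2).1
    · exact H.isHodge_sub (hd 2).1 (hd 3).1
    · exact H.isHodge_sub (H.isHodge_add (H.isHodge_add (hd 2).1 (hd 3).1) hP.1) hH.h_hodge
  · fin_cases i
    · show H.ip (Q 0 - Q 1) H.h = 0
      rw [H.ip_sub_left, (hd 0).2.1, (hd 1).2.1]
      norm_num
    · show H.ip (Q 1 - Q 2) H.h = 0
      rw [H.ip_sub_left, (hd 1).2.1, (hd 2).2.1]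
      norm_num
    · show H.ip (Q 2 - Q 3) H.h = 0
      rw [H.ip_sub_left, (hd 2).2.1, (hd 3).2.1]
      norm_num
    · show H.ip (Q 2 + Q 3 + P - H.h) H.h = 0
      rw [H.ip_sub_left, H.ip_add_left, H.ip_add_left, (hd 2).2.1, (hd 3).2.1, hP.2.1,
        hH.h_self]
      norm_num
  · rw [hD]
    fin_cases i <;> fin_cases j <;>
      simp [H.ip_sub_left, H.ip_sub_right, H.ip_add_left, H.ip_add_right, h1, h1', h3, h3',
        e01, e02, e03, e12, e13, e23, e10, e20, e30, e21, e31, e32, (hd _).2.1, (hd _).2.2, hP.2.1,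
        hP.2.2, hH.h_self]

end Pool.Agent.X328.CF.D4
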