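import Pool.Agent.X328.CF.Coset

/-! # The norms of the elements of a coset of `2 E₈` in `E₈` -/

set_option autoImplicit false

namespace Pool.Agent.X328.CF

open Finset

/-- vectors with odd coordinates -/
theorem odd_case (y : Fin 8 → ℤ) (hy : ∀ i, y i % 2 = 1) (j : ℕ) :
    ∃ u : Fin 8 → ℤ, InL u ∧ ∑ i, (y i + 2 * u i) ^ 2 = ∑ i, y i ^ 2 + 16 * j := by
  classical
  have hst : ∀ i, ∃ s t : ℤ, (s = 1 ∨ s = -1) ∧ y i = s * (1 + 4 * t) := by
    intro i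
    have h1 := hy i
    by_cases h4 : y i % 4 = 1
    · exact ⟨1, y i / 4, Or.inl rfl, by omega⟩
    · exact ⟨-1, (-y i) / 4, Or.inr rfl, by omega⟩
  choose s t hs hyt using hst
  have hs2 : ∀ i, s i ^ 2 = 1 := by
    intro i
    rcases hs i with h | h <;> rw [h] <;> norm_num
  obtain ⟨S, -, hS⟩ := Finset.exists_subset_card_eq (s := (Finset.univ : Finset (Fin 8)))
    (n := 4) (by rw [Finset.card_univ, Fintype.card_fin]; norm_num)
  have hT0 : ∀ a : ℤ, 0 ≤ a * (2 * a + 1) := by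
    intro a
    rcases le_or_gt 0 a with h | h
    · positivity
    · nlinarith
  obtain ⟨a, ha⟩ := tri_on hS (∑ i ∈ S, t i * (2 * t i + 1) + 2 * j)
    (add_nonneg (Finset.sum_nonneg fun i _ => hT0 _) (by positivity))
  have hat : ∀ i, ∃ t' : ℤ, a i * (a i + 1) = 2 * (t' * (2 * t' + 1)) := by
    intro i
    rcases Int.even_or_odd' (a i) with ⟨b, hb | hb⟩
    · exact ⟨b, by rw [hb]; ring⟩
    · exact ⟨-(b + 1), by rw [hb]; ring⟩
  choose t' ht' using hat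
  have hsum : ∑ i ∈ S, t' i * (2 * t' i + 1) = ∑ i ∈ S, t i * (2 * t i + 1) + 2 * j := by
    have h1 : ∑ i ∈ S, a i * (a i + 1) = 2 * ∑ i ∈ S, t' i * (2 * t' i + 1) := by
      rw [Finset.mul_sum]
      exact Finset.sum_congr rfl fun i _ => ht' i
    rw [ha] at h1
    linarith
  refine ⟨fun i => if i ∈ S then 2 * (s i * (t' i - t i)) else 0, ⟨fun i k => ?_, ?_⟩, ?_⟩
  · have key : ∀ i, (if i ∈ S then 2 * (s i * (t' i - t i)) else 0) % 2 = 0 := by
      intro i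
      split_ifs
      · exact Int.mul_emod_right 2 _
      · rfl
    have a := key i
    have b := key k
    dsimp only
    omega
  · rw [Finset.sum_ite_mem, Finset.univ_inter, ← Finset.mul_sum]
    have h1 : (∑ i ∈ S, s i * (t' i - t i)) % 2 = 0 := by
      have h2 : ∑ i ∈ S, s i * (t' i - t i) =
          2 * j - 2 * ∑ i ∈ S, (t' i ^ 2 - t i ^ 2 + (1 - s i) / 2 * (t' i - t i)) := by
        have h3 : (2 : ℤ) * j = ∑ i ∈ S, (t' i * (2 * t' i + 1) - t i * (2 * t i + 1)) := by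
          rw [Finset.sum_sub_distrib, hsum]
          ring
        rw [h3, Finset.mul_sum, ← Finset.sum_sub_distrib]
        refine Finset.sum_congr rfl fun i _ => ?_
        rcases hs i with h | h <;> rw [h] <;> norm_num <;> ring
      rw [h2]
      omega
    omega
  · have h1 : ∀ i, (y i + 2 * (if i ∈ S then 2 * (s i * (t' i - t i)) else 0)) ^ 2 =
        y i ^ 2 + if i ∈ S then 8 * (t' i * (2 * t' i + 1) - t i * (2 * t i + 1)) else 0 := by
      intro i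
      by_cases hi : i ∈ S
      · rw [if_pos hi, if_pos hi, hyt i]
        linear_combination (8 * (t' i * (2 * t' i + 1) - t i * (2 * t i + 1))) * hs2 i
      · rw [if_neg hi, if_neg hi]
        ring
    rw [Finset.sum_congr rfl fun i _ => h1 i, Finset.sum_add_distrib, Finset.sum_ite_mem,
      Finset.univ_inter, ← Finset.mul_sum, Finset.sum_sub_distrib, hsum]
    ring

/-- **The norms in a nonzero coset of `2 E₈`**, in coordinates. -/
theorem coset (y : Fin 8 → ℤ) (hy : InL y) (h2 : ¬ ∃ u, InL u ∧ ∀ i, y i = 2 * u i) (j : ℕ) :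
    ∃ u : Fin 8 → ℤ, InL u ∧ ∑ i, (y i + 2 * u i) ^ 2 = ∑ i, y i ^ 2 + 16 * j := by
  by_cases h0 : y 0 % 2 = 1
  · refine odd_case y (fun i => ?_) j
    have := hy.1 i 0
    omega
  · have hev : ∀ i, y i % 2 = 0 := fun i => by
      have := hy.1 i 0
      omega
    obtain ⟨x, hx⟩ : ∃ x : Fin 8 → ℤ, ∀ i, y i = 2 * x i := ⟨fun i => y i / 2, fun i => by
      have := hev i
      dsimp only
      omega⟩
    have hxs : ∑ i, y i = 2 * ∑ i, x i := by
      rw [Finset.mul_sum]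
      exact Finset.sum_congr rfl fun i _ => hx i
    have hy4 := hy.2
    obtain ⟨x', h1, h3⟩ := even_case x (by omega) (fun h => h2 ⟨x, h, hx⟩) j
    refine ⟨fun i => x' i - x i, h1, ?_⟩
    have e1 : ∑ i, (y i + 2 * (x' i - x i)) ^ 2 = 4 * ∑ i, x' i ^ 2 := by
      rw [Finset.mul_sum]
      exact Finset.sum_congr rfl fun i _ => by rw [hx]; ring
    have e2 : ∑ i, y i ^ 2 = 4 * ∑ i, x i ^ 2 := by
      rw [Finset.mul_sum]
      exact Finset.sum_congr rfl fun i _ => by rw [hx]; ring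
    rw [e1, e2, h3]
    ring

/-- twice the coordinates of `∑ c_i α_i`, where the `α_i` are the simple roots of `E₈` -/
def Y (c : Fin 8 → ℤ) : Fin 8 → ℤ :=
  ![c 0 + 2 * c 1 - 2 * c 2, -c 0 + 2 * c 1 + 2 * c 2 - 2 * c 3, -c 0 + 2 * c 3 - 2 * c 4,
    -c 0 + 2 * c 4 - 2 * c 5, -c 0 + 2 * c 5 - 2 * c 6, -c 0 + 2 * c 6 - 2 * c 7,
    -c 0 + 2 * c 7, c 0]

/-- the quadratic form of `E₈` -/
def qf (c : Fin 8 → ℤ) : ℤ := ∑ i, ∑ j, c i * CartanMatrix.E₈ i j * c j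

theorem sum_Y (c : Fin 8 → ℤ) : ∑ i, Y c i ^ 2 = 4 * qf c := by
  unfold qf Y CartanMatrix.E₈
  simp only [Fin.sum_univ_eight]
  simp [Matrix.cons_val]
  ring

theorem Y_inL (c : Fin 8 → ℤ) : InL (Y c) := by
  constructor
  · have key : ∀ i, (Y c i - c 0) % 2 = 0 := by
      intro i
      fin_cases i <;> simp [Y] <;> omega
    intro i j
    have a := key i
    have b := key j
    omega
  · rw [Fin.sum_univ_eight]
    simp [Y]
    omega

theorem Y_surj (y : Fin 8 → ℤ) (hy : InL y) : ∃ c, Y c = y := by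
  obtain ⟨h1, h2⟩ := hy
  rw [Fin.sum_univ_eight] at h2
  have a0 := h1 0 7
  have a1 := h1 1 7
  have a2 := h1 2 7
  have a3 := h1 3 7
  have a4 := h1 4 7
  have a5 := h1 5 7
  have a6 := h1 6 7
  obtain ⟨c7, e7⟩ : ∃ c, y 6 + y 7 = 2 * c := ⟨(y 6 + y 7) / 2, by omega⟩
  obtain ⟨c6, e6⟩ : ∃ c, y 5 + y 7 + 2 * c7 = 2 * c := ⟨(y 5 + y 7 + 2 * c7) / 2, by omega⟩
  obtain ⟨c5, e5⟩ : ∃ c, y 4 + y 7 + 2 * c6 = 2 * c := ⟨(y 4 + y 7 + 2 * c6) / 2, by omega⟩
  obtain ⟨c4, e4⟩ : ∃ c, y 3 + y 7 + 2 * c5 = 2 * c := ⟨(y 3 + y 7 + 2 * c5) / 2, by omega⟩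
  obtain ⟨c3, e3⟩ : ∃ c, y 2 + y 7 + 2 * c4 = 2 * c := ⟨(y 2 + y 7 + 2 * c4) / 2, by omega⟩
  obtain ⟨c1, e1⟩ : ∃ c, y 0 + y 1 + 2 * c3 = 4 * c := ⟨(y 0 + y 1 + 2 * c3) / 4, by omega⟩
  obtain ⟨c2, e2⟩ : ∃ c, y 1 - y 0 + 2 * y 7 + 2 * c3 = 4 * c :=
    ⟨(y 1 - y 0 + 2 * y 7 + 2 * c3) / 4, by omega⟩
  refine ⟨![y 7, c1, c2, c3, c4, c5, c6, c7], ?_⟩
  funext i
  fin_cases i <;> simp [Y] <;> omega

theorem Y_add (c d : Fin 8 → ℤ) (i : Fin 8) : Y (fun i => c i + 2 * d i) i = Y c i + 2 * Y d i := by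
  fin_cases i <;> simp [Y] <;> ring

theorem Y_inj {c d : Fin 8 → ℤ} (h : Y c = Y d) : c = d := by
  have h0 : c 0 + 2 * c 1 - 2 * c 2 = d 0 + 2 * d 1 - 2 * d 2 := congrFun h 0
  have h1 : -c 0 + 2 * c 1 + 2 * c 2 - 2 * c 3 = -d 0 + 2 * d 1 + 2 * d 2 - 2 * d 3 :=
    congrFun h 1
  have h2 : -c 0 + 2 * c 3 - 2 * c 4 = -d 0 + 2 * d 3 - 2 * d 4 := congrFun h 2
  have h3 : -c 0 + 2 * c 4 - 2 * c 5 = -d 0 + 2 * d 4 - 2 * d 5 := congrFun h 3
  have h4 : -c 0 + 2 * c 5 - 2 * c 6 = -d 0 + 2 * d 5 - 2 * d 6 := congrFun h 4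
  have h5 : -c 0 + 2 * c 6 - 2 * c 7 = -d 0 + 2 * d 6 - 2 * d 7 := congrFun h 5
  have h6 : -c 0 + 2 * c 7 = -d 0 + 2 * d 7 := congrFun h 6
  have h7 : c 0 = d 0 := congrFun h 7
  have k7 : c 7 = d 7 := by linarith
  have k6 : c 6 = d 6 := by linarith
  have k5 : c 5 = d 5 := by linarith
  have k4 : c 4 = d 4 := by linarith
  have k3 : c 3 = d 3 := by linarith
  have k1 : c 1 = d 1 := by linarith
  have k2 : c 2 = d 2 := by linarith
  funext i
  fin_cases i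
  · exact h7
  · exact k1
  · exact k2
  · exact k3
  · exact k4
  · exact k5
  · exact k6
  · exact k7

/-- **The norms in a nonzero coset of `2 E₈`.** -/
theorem e8_coset (e : Fin 8 → ℤ) (he : ∃ i, e i % 2 = 1) (j : ℕ) :
    ∃ c : Fin 8 → ℤ, qf (fun i => e i + 2 * c i) = qf e + 4 * j := by
  obtain ⟨u, hu, h⟩ := coset (Y e) (Y_inL e) (by
    rintro ⟨u, hu, hy⟩
    obtain ⟨c, rfl⟩ := Y_surj u hu
    have h1 : Y e = Y (fun i => (fun _ => (0 : ℤ)) i + 2 * c i) := by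
      funext i
      rw [Y_add, hy i]
      have : Y (fun _ => (0 : ℤ)) i = 0 := by
        fin_cases i <;> simp [Y]
      rw [this, zero_add]
    have h2 := Y_inj h1
    obtain ⟨i, hi⟩ := he
    have h3 := congrFun h2 i
    simp only [zero_add] at h3
    omega) j
  obtain ⟨c, rfl⟩ := Y_surj u hu
  refine ⟨c, ?_⟩
  have h1 := sum_Y (fun i => e i + 2 * c i)
  have h2 := sum_Y e
  have h3 : ∑ i, Y (fun i => e i + 2 * c i) i ^ 2 = ∑ i, (Y e i + 2 * Y c i) ^ 2 :=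
    Finset.sum_congr rfl fun i _ => by rw [Y_add]
  rw [h3, h, h2] at h1
  linarith

/-- `E₈` represents all even numbers -/
theorem e8_all (N : ℕ) : ∃ c : Fin 8 → ℤ, qf c = 2 * N := by
  obtain ⟨S, -, hS⟩ := Finset.exists_subset_card_eq (s := (Finset.univ : Finset (Fin 8)))
    (n := 4) (by rw [Finset.card_univ, Fintype.card_fin]; norm_num)
  obtain ⟨t, ht⟩ := sq_on hS (2 * N : ℤ) (by positivity)
  have hp := sum_sq_parity S t
  have key : ∀ i, (if i ∈ S then 2 * t i else 0) % 2 = 0 := by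
    intro i
    split_ifs
    · exact Int.mul_emod_right 2 _
    · rfl
  obtain ⟨c, hc⟩ := Y_surj (fun i => if i ∈ S then 2 * t i else 0) ⟨fun i k => by
    have a := key i
    have b := key k
    dsimp only
    omega, by
    rw [Finset.sum_ite_mem, Finset.univ_inter, ← Finset.mul_sum]
    omega⟩
  refine ⟨c, ?_⟩
  have h1 := sum_Y c
  rw [hc] at h1
  have h2 : ∀ i, (if i ∈ S then 2 * t i else 0) ^ 2 = if i ∈ S then 4 * t i ^ 2 else 0 := by
    intro i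
    split_ifs <;> ring
  rw [Finset.sum_congr rfl fun i _ => h2 i, Finset.sum_ite_mem, Finset.univ_inter,
    ← Finset.mul_sum, ht] at h1
  linarith

/-- `E₈` is unimodular -/
theorem e8_dual (f : Fin 8 → ℤ) : ∃ e : Fin 8 → ℤ, ∀ i, ∑ j, CartanMatrix.E₈ i j * e j = f i := by
  have hdet : IsUnit CartanMatrix.E₈.det := by
    rw [CartanMatrix.E₈_det]
    exact isUnit_one
  refine ⟨(CartanMatrix.E₈)⁻¹.mulVec f, fun i => ?_⟩
  have h1 : CartanMatrix.E₈.mulVec ((CartanMatrix.E₈)⁻¹.mulVec f) = f := by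
    rw [Matrix.mulVec_mulVec, Matrix.mul_nonsing_inv _ hdet, Matrix.one_mulVec]
  exact congrFun h1 i

end Pool.Agent.X328.CF
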