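import Pool.Agent.X328.CF.Prog

/-! # Norms of the Eisenstein integers -/

set_option autoImplicit false

namespace Pool.Agent.X328.CF.Eis

/-- reduction of binary quadratic forms of discriminant `-3` -/
theorem reduce (N : ℕ) : ∀ a c n : ℤ, 0 < a → 0 < c → a * c = n ^ 2 + n + 1 → a + c ≤ N →
    ∃ s t u v : ℤ, a = s ^ 2 + s * t + t ^ 2 ∧ c = u ^ 2 + u * v + v ^ 2 ∧
      2 * n + 1 = 2 * s * u + s * v + t * u + 2 * t * v := by
  induction N with
  | zero =>
    intro a c n ha hc _ h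
    push_cast at h
    omega
  | succ N ih =>
    -- the case `a ≤ c`
    have key : ∀ a c n : ℤ, 0 < a → a ≤ c → a * c = n ^ 2 + n + 1 → a + c ≤ N + 1 →
        ∃ s t u v : ℤ, a = s ^ 2 + s * t + t ^ 2 ∧ c = u ^ 2 + u * v + v ^ 2 ∧
          2 * n + 1 = 2 * s * u + s * v + t * u + 2 * t * v := by
      intro a c n ha hac h hN
      rcases lt_or_ge a (2 * n + 1) with h1 | h1
      · have e : a * (c - (2 * n + 1) + a) = (n - a) ^ 2 + (n - a) + 1 := by
          linear_combination h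
        have hpos : 0 < c - (2 * n + 1) + a := by
          have h2 : 0 < a * (c - (2 * n + 1) + a) := by rw [e]; nlinarith [sq_nonneg (2 * (n - a) + 1)]
          exact (mul_pos_iff_of_pos_left ha).1 h2
        obtain ⟨s, t, u, v, e1, e2, e3⟩ := ih a _ (n - a) ha hpos e (by omega)
        refine ⟨s, t, u + s, v + t, e1, ?_, ?_⟩
        · linear_combination e2 + e3 + 2 * e1 - e1
        · linear_combination e3 + 2 * e1
      · rcases lt_or_ge (2 * n + 1) (-a) with h2 | h2
        · have e : a * (c + (2 * n + 1) + a) = (n + a) ^ 2 + (n + a) + 1 := by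
            linear_combination h
          have hpos : 0 < c + (2 * n + 1) + a := by
            have h3 : 0 < a * (c + (2 * n + 1) + a) := by
              rw [e]; nlinarith [sq_nonneg (2 * (n + a) + 1)]
            exact (mul_pos_iff_of_pos_left ha).1 h3
          obtain ⟨s, t, u, v, e1, e2, e3⟩ := ih a _ (n + a) ha hpos e (by omega)
          refine ⟨s, t, u - s, v - t, e1, ?_, ?_⟩
          · linear_combination e2 - e3 + 2 * e1 - e1
          · linear_combination e3 - 2 * e1
        · have h3 : a * a ≤ n ^ 2 + n + 1 := by rw [← h]; exact mul_le_mul_of_nonneg_left hac ha.le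
          have h4 : (2 * n + 1) ^ 2 ≤ a ^ 2 := sq_le_sq' (by omega) h1
          have h5 : a = 1 := by nlinarith
          subst h5
          have h6 : n = 0 ∨ n = -1 := by omega
          rcases h6 with rfl | rfl
          · exact ⟨1, 0, 0, 1, by norm_num, by linarith, by norm_num⟩
          · exact ⟨1, 0, -1, 1, by norm_num, by linarith, by norm_num⟩
    intro a c n ha hc h hN
    push_cast at hN
    rcases le_total a c with h1 | h1
    · exact key a c n ha h1 h hN
    · obtain ⟨s, t, u, v, e1, e2, e3⟩ := key c a n hc h1 (by linarith) (by omega)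
      exact ⟨u, v, s, t, e2, e1, by linarith⟩

/-- every positive divisor of `n ^ 2 + n + 1` is a norm -/
theorem norm_of_dvd {k n : ℤ} (hk : 0 < k) (h : k ∣ n ^ 2 + n + 1) :
    ∃ s t : ℤ, k = s ^ 2 - s * t + t ^ 2 := by
  obtain ⟨c, hc⟩ := h
  have hc0 : 0 < c := by
    have h2 : 0 < k * c := by rw [← hc]; nlinarith [sq_nonneg (2 * n + 1)]
    exact (mul_pos_iff_of_pos_left hk).1 h2
  obtain ⟨s, t, u, v, e1, -, -⟩ := reduce (k + c).toNat k c n hk hc0 hc.symm
    (by rw [Int.toNat_of_nonneg (by omega)])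
  exact ⟨s, -t, by rw [e1]; ring⟩

/-- prime powers -/
theorem prime_pow {p : ℕ} (hp : p.Prime) (h3 : p % 3 = 1) (k : ℕ) :
    ∃ n : ℤ, ((p : ℤ) ^ k) ∣ n ^ 2 + n + 1 := by
  have : Fact p.Prime := ⟨hp⟩
  -- an element of order three
  have hbase : ∃ n : ℤ, (p : ℤ) ∣ n ^ 2 + n + 1 := by
    have hcard : 3 ∣ Fintype.card (ZMod p)ˣ := by
      rw [ZMod.card_units p]
      have := hp.two_le
      omega
    have : Fact (Nat.Prime 3) := ⟨Nat.prime_three⟩
    obtain ⟨x, hx⟩ := exists_prime_orderOf_dvd_card 3 hcard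
    have h1 : (x : ZMod p) ^ 3 = 1 := by
      have := pow_orderOf_eq_one x
      rw [hx] at this
      have h2 := congrArg (fun y : (ZMod p)ˣ => (y : ZMod p)) this
      simpa using h2
    have h2 : (x : ZMod p) ≠ 1 := by
      intro h
      have : x = 1 := Units.ext h
      rw [this, orderOf_one] at hx
      omega
    obtain ⟨n, hn⟩ := ZMod.intCast_surjective (x : ZMod p)
    refine ⟨n, (ZMod.intCast_zmod_eq_zero_iff_dvd _ p).1 ?_⟩
    push_cast
    rw [hn]
    have h4 : ((x : ZMod p) - 1) * ((x : ZMod p) ^ 2 + x + 1) = 0 := by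
      linear_combination h1
    exact (mul_eq_zero.1 h4).resolve_left (sub_ne_zero.2 h2)
  induction k with
  | zero => exact ⟨0, by simp⟩
  | succ k ih =>
    rcases Nat.eq_zero_or_pos k with rfl | hk
    · simpa using hbase
    obtain ⟨n, c, hc⟩ := ih
    have hcop : IsCoprime (2 * n + 1) (p : ℤ) := by
      rw [Int.isCoprime_iff_gcd_eq_one, Int.gcd_comm]
      have h1 : ¬ (p : ℤ) ∣ 2 * n + 1 := by
        intro hd
        have h2 : (p : ℤ) ∣ n ^ 2 + n + 1 := hc ▸ (dvd_pow_self _ hk.ne').mul_right c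
        have h4 : (p : ℤ) ∣ 3 := by
          have h5 : (3 : ℤ) = 4 * (n ^ 2 + n + 1) - (2 * n + 1) * (2 * n + 1) := by ring
          rw [h5]
          exact (h2.mul_left 4).sub (hd.mul_left _)
        have h5 : p ∣ 3 := by exact_mod_cast h4
        have h6 := (Nat.prime_dvd_prime_iff_eq hp Nat.prime_three).1 h5
        omega
      exact (Int.prime_iff_natAbs_prime.2 (by simpa using hp)).coprime_iff_not_dvd.2 h1 |>
        Int.isCoprime_iff_gcd_eq_one.1
    obtain ⟨a, b, hab⟩ := hcop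
    refine ⟨n + (p : ℤ) ^ k * (-c * a), ?_⟩
    obtain ⟨j, rfl⟩ : ∃ j, k = j + 1 := ⟨k - 1, by omega⟩
    refine ⟨c * b + (p : ℤ) ^ j * (c * a) ^ 2, ?_⟩
    linear_combination hc - c * (p : ℤ) ^ (j + 1) * hab

/-- numbers all of whose prime factors are `1` modulo three, or three once -/
theorem exists_root (m : ℕ) (h9 : ¬ 9 ∣ m) (hp : ∀ p, p.Prime → p ∣ m → p % 3 ≠ 2) :
    ∃ n : ℤ, (m : ℤ) ∣ n ^ 2 + n + 1 := by
  induction m using Nat.recOnPosPrimePosCoprime with
  | zero => exact absurd (dvd_zero 9) h9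
  | one => exact ⟨0, by norm_num⟩
  | prime_pow p k hpp hk =>
    have h1 := hp p hpp (dvd_pow_self p hk.ne')
    have h2 : p % 3 = 1 ∨ p % 3 = 0 := by omega
    rcases h2 with h2 | h2
    · obtain ⟨n, hn⟩ := prime_pow hpp h2 k
      exact ⟨n, by push_cast; exact hn⟩
    · have h3 : p = 3 := ((Nat.prime_dvd_prime_iff_eq Nat.prime_three hpp).1
        (Nat.dvd_of_mod_eq_zero h2)).symm
      subst h3
      have h4 : k = 1 := by
        by_contra hne
        exact h9 ((by norm_num : 9 = 3 ^ 2) ▸ pow_dvd_pow 3 (by omega : 2 ≤ k))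
      subst h4
      exact ⟨1, by norm_num⟩
  | coprime a b ha hb hab iha ihb =>
    obtain ⟨n1, h1⟩ := iha (fun h => h9 (h.mul_right b)) fun p hpp hd => hp p hpp (hd.mul_right b)
    obtain ⟨n2, h2⟩ := ihb (fun h => h9 (h.mul_left a)) fun p hpp hd => hp p hpp (hd.mul_left a)
    have hc : IsCoprime (a : ℤ) (b : ℤ) := Nat.isCoprime_iff_coprime.2 hab
    obtain ⟨x, y, hxy⟩ := hc
    refine ⟨n1 * (y * b) + n2 * (x * a), ?_⟩
    push_cast
    refine (Nat.isCoprime_iff_coprime.2 hab).mul_dvd ?_ ?_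
    · have e : n1 * (y * b) + n2 * (x * a) = n1 + (a : ℤ) * (x * (n2 - n1)) := by
        linear_combination n1 * hxy
      rw [e]
      obtain ⟨c, hc⟩ := h1
      refine ⟨c + 2 * n1 * (x * (n2 - n1)) + a * (x * (n2 - n1)) ^ 2 + x * (n2 - n1), ?_⟩
      linear_combination hc
    · have e : n1 * (y * b) + n2 * (x * a) = n2 + (b : ℤ) * (y * (n1 - n2)) := by
        linear_combination n2 * hxy
      rw [e]
      obtain ⟨c, hc⟩ := h2
      refine ⟨c + 2 * n2 * (y * (n1 - n2)) + b * (y * (n1 - n2)) ^ 2 + y * (n1 - n2), ?_⟩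
      linear_combination hc

open Pool.Agent.Y95.Q in
/-- a multiple of an admissible number by a norm is `2 n ^ 2 + 2 n + 2` -/
theorem exists_mul {d : ℤ} (hA : Admissible d) (h2 : d % 2 = 0) :
    ∃ s t n : ℤ, (s ^ 2 - s * t + t ^ 2) * d = 2 * n ^ 2 + 2 * n + 2 := by
  obtain ⟨h6, h4, h9, hp⟩ := hA
  obtain ⟨m, hm⟩ : ∃ m : ℕ, d = 2 * m := ⟨(d / 2).toNat, by omega⟩
  obtain ⟨n, c, hc⟩ := exists_root m (fun h => h9 (by
      rw [hm]
      exact Dvd.dvd.mul_left (by exact_mod_cast h) 2)) (by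
    intro p hpp hd
    refine hp p hpp ?_ (by rw [hm]; exact Dvd.dvd.mul_left (by exact_mod_cast hd) 2)
    rintro rfl
    exact h4 (by rw [hm]; omega))
  have hm0 : (0 : ℤ) < m := by omega
  have hc0 : 0 < c := by
    have h2 : 0 < (m : ℤ) * c := by rw [← hc]; nlinarith [sq_nonneg (2 * n + 1)]
    exact (mul_pos_iff_of_pos_left hm0).1 h2
  obtain ⟨s, t, hst⟩ := norm_of_dvd hc0 (n := n) ⟨m, by rw [hc]; ring⟩
  exact ⟨s, t, n, by rw [← hst, hm]; linear_combination (-2) * hc⟩

end Pool.Agent.X328.CF.Eis
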