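import Pool.Agent.X328.CF.Small

/-! # A local-global principle for associated K3 surfaces of cubic fourfolds -/

set_option autoImplicit false

namespace Pool.Agent.X328.CF.LocGlob

open Finset Pool.Agent.Y95.Q Pool.Agent.Y95.Q.H4 Pool.Agent.X328.CF.D4 Pool.Agent.X328.CF.Small

variable {X : CubicFourfold} {H : H4 X}

/-- The theorem of Meyer: a primitive positive definite binary quadratic form which represents an
integer `n` which is prime to the modulus `m` and to the discriminant represents infinitely many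
prime numbers in the residue class of `n` modulo `m`. -/
def Meyer : Prop :=
  ∀ a b c m x y : ℤ, 0 < a → b ^ 2 < 4 * a * c → (∀ k : ℤ, k ∣ a → k ∣ b → k ∣ c → IsUnit k) →
    m ≠ 0 → IsCoprime (a * x ^ 2 + b * x * y + c * y ^ 2) (m * (b ^ 2 - 4 * a * c)) →
    ∀ N : ℕ, ∃ q : ℕ, q.Prime ∧ N < q ∧
      (∃ u v : ℤ, (q : ℤ) = a * u ^ 2 + b * u * v + c * v ^ 2) ∧
      m ∣ (q : ℤ) - (a * x ^ 2 + b * x * y + c * y ^ 2)

/-- a class of discriminant zero -/
theorem bl_null (hH : H.IsCohomology) {r : Fin 23 → ℤ} (hr : H.IsHodge r) (h0 : H.disc r = 0)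
    (x : Fin 23 → ℤ) : bl H r x = 0 := by
  have h1 : H.IsHodge ((3 : ℤ) • r - H.ip H.h r • H.h) :=
    H.isHodge_sub (H.isHodge_smul _ hr) (H.isHodge_smul _ hH.h_hodge)
  have h2 : (3 : ℤ) • r - H.ip H.h r • H.h = 0 := by
    by_contra hne
    have h3 := hH.pos _ h1 hne
    have h4 : H.ip ((3 : ℤ) • r - H.ip H.h r • H.h) ((3 : ℤ) • r - H.ip H.h r • H.h) =
        3 * H.disc r := by
      simp only [disc, ip_sub_left, ip_sub_right, ip_smul_left, ip_smul_right, hH.h_self,
        hH.comm r H.h]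
      ring
    rw [h4, h0] at h3
    norm_num at h3
  have h5 : bl H ((3 : ℤ) • r) x = 0 := by
    rw [sub_eq_zero.1 h2, bl_smul_left, bl_h hH, mul_zero]
  rw [bl_smul_left] at h5
  omega

/-- equality in the inequality of Cauchy and Schwarz -/
theorem bl_of_det (hH : H.IsCohomology) {u z : Fin 23 → ℤ} (hu : H.IsHodge u) (hz : H.IsHodge z)
    (h0 : H.disc u * H.disc z - bl H u z ^ 2 = 0) (x : Fin 23 → ℤ) :
    H.disc u * bl H z x = bl H u z * bl H u x := by
  have hr : H.IsHodge (H.disc u • z + (-(bl H u z)) • u) :=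
    H.isHodge_add (H.isHodge_smul _ hz) (H.isHodge_smul _ hu)
  have h1 : H.disc (H.disc u • z + (-(bl H u z)) • u) = 0 := by
    rw [disc_lin hH, bl_comm hH z u]
    linear_combination (H.disc u) * h0
  have h2 := bl_null hH hr h1 x
  rw [bl_add_left, bl_smul_left, bl_smul_left] at h2
  linarith

theorem det_add (hH : H.IsCohomology) {u z y : Fin 23 → ℤ} (hu : H.IsHodge u) (hz : H.IsHodge z)
    (h0 : H.disc u * H.disc z - bl H u z ^ 2 = 0) (n : ℤ) :
    H.disc u * H.disc ((1 : ℤ) • z + n • y) - bl H u ((1 : ℤ) • z + n • y) ^ 2 =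
      n ^ 2 * (H.disc u * H.disc y - bl H u y ^ 2) := by
  have h1 := bl_of_det hH hu hz h0 y
  have h2 : bl H u ((1 : ℤ) • z + n • y) = bl H u z + n * bl H u y := by
    rw [bl_comm hH, bl_add_left, bl_smul_left, bl_smul_left, bl_comm hH z u, bl_comm hH y u]
    ring
  rw [disc_lin hH, h2]
  linear_combination h0 + (2 * n) * h1

/-- some class is independent of a given one -/
theorem exists_indep (hH : H.IsCohomology) {v w u : Fin 23 → ℤ} (hv : H.IsHodge v)
    (hw : H.IsHodge w) (hvw : H.disc v * H.disc w - bl H v w ^ 2 ≠ 0) (hu : H.IsHodge u)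
    (hu0 : H.disc u ≠ 0) :
    ∃ z, H.IsHodge z ∧ H.disc u * H.disc z - bl H u z ^ 2 ≠ 0 := by
  by_contra hcon
  push Not at hcon
  have h1 := hcon v hv
  have h2 := hcon w hw
  have h3 := bl_of_det hH hu hv h1 w
  apply hvw
  have h4 : H.disc u ^ 2 * (H.disc v * H.disc w - bl H v w ^ 2) = 0 := by
    linear_combination (H.disc u * H.disc w) * h1 + (bl H u v ^ 2) * h2 -
      (H.disc u * bl H v w + bl H u v * bl H u w) * h3
  rcases mul_eq_zero.1 h4 with h | h
  · exact absurd (pow_eq_zero_iff (by norm_num) |>.1 h) hu0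
  · exact h

/-- A value which is prime to a given number, and congruent to a given value. -/
theorem exists_coprime {V : Type} [AddCommGroup V] (g : V → ℤ)
    (hg : ∀ (p s : ℤ) (u z : V), p ∣ s → p ∣ g (u + s • z) - g u) (P : V → Prop)
    (hP : ∀ (s : ℤ) (u z : V), P u → P z → P (u + s • z)) (K : ℤ) (hK : K ≠ 0) {u : V} (hu : P u)
    (m : ℤ) (hm : m ≠ 0) (hmu : IsCoprime (g u) m)
    (hprim : ∀ p : ℕ, p.Prime → ∃ z, P z ∧ ¬ (p : ℤ) ∣ g z) :
    ∃ z, P z ∧ m ∣ g z - g u ∧ IsCoprime (g z) (m * K) := by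
  classical
  -- induction on the set of the primes
  have key : ∀ S : Finset ℕ, (∀ p ∈ S, p.Prime) →
      ∃ z, P z ∧ m ∣ g z - g u ∧ ∀ p ∈ S, ¬ (p : ℤ) ∣ g z := by
    intro S
    induction S using Finset.induction_on with
    | empty => exact fun _ => ⟨u, hu, by simp, by simp⟩
    | insert p S hpS ih =>
      intro hS
      obtain ⟨z, hz, hzm, hzS⟩ := ih fun q hq => hS q (Finset.mem_insert_of_mem hq)
      have hp : p.Prime := hS p (Finset.mem_insert_self _ _)
      by_cases hpz : (p : ℤ) ∣ g z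
      · -- `p` does not divide `m`
        have hpm : ¬ (p : ℤ) ∣ m := by
          intro hd
          have h1 : (p : ℤ) ∣ g u := by
            have h2 : (p : ℤ) ∣ g z - g u := hd.trans hzm
            have := dvd_sub hpz h2
            simpa using this
          obtain ⟨a, b, hab⟩ := hmu
          have h2 : (p : ℤ) ∣ 1 := by
            rw [← hab]
            exact dvd_add (Dvd.dvd.mul_left h1 a) (Dvd.dvd.mul_left hd b)
          have h3 : (p : ℤ) ∣ ((1 : ℕ) : ℤ) := by simpa using h2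
          exact hp.one_lt.ne' (Nat.dvd_one.1 (Int.natCast_dvd_natCast.1 h3))
        obtain ⟨t, ht, hpt⟩ := hprim p hp
        -- the product of the other primes and `m`
        have hcop : IsCoprime (p : ℤ) (m * ∏ q ∈ S, (q : ℤ)) := by
          refine IsCoprime.mul_right ?_ (IsCoprime.prod_right fun q hq => ?_)
          · exact (Int.isCoprime_iff_gcd_eq_one.2 (by
              rw [Int.gcd_comm]
              by_contra hne
              have h1 : (Int.gcd m p) ∣ p := by
                have := Int.gcd_dvd_right m (p : ℤ)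
                exact_mod_cast this
              rcases (Nat.dvd_prime hp).1 h1 with h | h
              · exact hne h
              · apply hpm
                have := Int.gcd_dvd_left m (p : ℤ)
                rw [h] at this
                exact this))
          · have hq' := hS q (Finset.mem_insert_of_mem hq)
            have hne : p ≠ q := by
              rintro rfl
              exact hpS hq
            exact Nat.isCoprime_iff_coprime.2 ((Nat.coprime_primes hp hq').2 hne)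
        obtain ⟨a, b, hab⟩ := hcop
        -- the coefficient is one modulo `p` and zero modulo the rest
        refine ⟨z + (b * (m * ∏ q ∈ S, (q : ℤ))) • (t + (-1 : ℤ) • z), ?_, ?_, ?_⟩
        · exact hP _ _ _ hz (hP _ _ _ ht hz)
        · have h1 := hg m (b * (m * ∏ q ∈ S, (q : ℤ))) z (t + (-1 : ℤ) • z)
            (Dvd.dvd.mul_left (Dvd.intro _ rfl) b)
          have h2 := dvd_add h1 hzm
          have e : g (z + (b * (m * ∏ q ∈ S, (q : ℤ))) • (t + (-1 : ℤ) • z)) - g z +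
              (g z - g u) = g (z + (b * (m * ∏ q ∈ S, (q : ℤ))) • (t + (-1 : ℤ) • z)) - g u := by
            ring
          rw [e] at h2
          exact h2
        · intro q hq hd
          rcases Finset.mem_insert.1 hq with rfl | hqS
          · -- the prime `p`
            have e : z + (b * (m * ∏ q ∈ S, (q : ℤ))) • (t + (-1 : ℤ) • z) =
                t + (a * q) • (z + (-1 : ℤ) • t) := by
              have h3 : b * (m * ∏ q ∈ S, (q : ℤ)) = 1 - a * q := by linarith
              rw [h3]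
              simp only [smul_add, sub_smul, one_smul, neg_smul, smul_neg]
              abel
            rw [e] at hd
            have h1 := hg q (a * q) t (z + (-1 : ℤ) • t) (Dvd.intro_left _ rfl)
            have h2 := dvd_sub hd h1
            rw [sub_sub_cancel] at h2
            exact hpt h2
          · have h1 := hg q (b * (m * ∏ q ∈ S, (q : ℤ))) z (t + (-1 : ℤ) • z)
              (Dvd.dvd.mul_left (Dvd.dvd.mul_left (Finset.dvd_prod_of_mem _ hqS) m) b)
            have h2 := dvd_sub hd h1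
            rw [sub_sub_cancel] at h2
            exact hzS q hqS h2
      · refine ⟨z, hz, hzm, fun q hq => ?_⟩
        rcases Finset.mem_insert.1 hq with rfl | hqS
        · exact hpz
        · exact hzS q hqS
  obtain ⟨z, hz, hzm, hzS⟩ := key (m * K).natAbs.primeFactors fun p hp =>
    Nat.prime_of_mem_primeFactors hp
  refine ⟨z, hz, hzm, ?_⟩
  rw [Int.isCoprime_iff_gcd_eq_one]
  by_contra hne
  obtain ⟨p, hp, hpd⟩ := Nat.exists_prime_and_dvd hne
  have h1 : (p : ℤ) ∣ g z := (Int.natCast_dvd_natCast.2 hpd).trans (Int.gcd_dvd_left _ _)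
  have h2 : (p : ℤ) ∣ m * K := (Int.natCast_dvd_natCast.2 hpd).trans (Int.gcd_dvd_right _ _)
  refine hzS p ?_ h1
  rw [Nat.mem_primeFactors]
  exact ⟨hp, Int.natCast_dvd.1 h2, by
    rw [Int.natAbs_ne_zero]
    exact mul_ne_zero hm hK⟩

/-- the greatest common divisor of the halves of the discriminants -/
theorem exists_content (hH : H.IsCohomology) (hne : ∃ v, H.IsHodge v ∧ H.disc v ≠ 0) :
    ∃ G : ℕ, 0 < G ∧ (∀ v, H.IsHodge v → ((2 * G : ℕ) : ℤ) ∣ H.disc v) ∧
      ∀ p : ℕ, p.Prime → ∃ v, H.IsHodge v ∧ ¬ ((2 * G * p : ℕ) : ℤ) ∣ H.disc v := by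
  classical
  obtain ⟨v0, hv0, hd0⟩ := hne
  let P : ℕ → Prop := fun n => 0 < n ∧ ∀ v, H.IsHodge v → ((2 * n : ℕ) : ℤ) ∣ H.disc v
  have hbound : ∀ n, P n → n ≤ (H.disc v0).natAbs := by
    intro n hn
    have h1 := hn.2 v0 hv0
    have h2 : 2 * n ∣ (H.disc v0).natAbs := Int.natCast_dvd.1 h1
    have h3 := Nat.le_of_dvd (Int.natAbs_pos.2 hd0) h2
    omega
  have hP1 : P 1 := ⟨one_pos, fun v _ => by
    have := disc_even hH v
    exact Int.dvd_of_emod_eq_zero (by simpa using this)⟩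
  have hspec : P (Nat.findGreatest P (H.disc v0).natAbs) :=
    Nat.findGreatest_spec (hbound 1 hP1) hP1
  refine ⟨Nat.findGreatest P (H.disc v0).natAbs, hspec.1, hspec.2, fun p hp => ?_⟩
  by_contra hcon
  push Not at hcon
  have h1 : P (Nat.findGreatest P (H.disc v0).natAbs * p) :=
    ⟨Nat.mul_pos hspec.1 hp.pos, fun v hv => by
      have := hcon v hv
      rw [mul_assoc] at this
      exact this⟩
  have h2 := Nat.le_findGreatest (hbound _ h1) h1
  have h3 := hp.two_le
  have h4 := hspec.1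
  nlinarith

/-- the group of Hodge classes -/
def hodgeSub (H : H4 X) : AddSubgroup (Fin 23 → ℤ) where
  carrier := {v | H.IsHodge v}
  zero_mem' := H.isHodge_zero
  add_mem' := fun h1 h2 => H.isHodge_add h1 h2
  neg_mem' := fun h => H.isHodge_neg h

theorem det_nonneg (hH : H.IsCohomology) {u z : Fin 23 → ℤ} (hu : H.IsHodge u)
    (hz : H.IsHodge z) (h0 : 0 < H.disc u) : 0 ≤ H.disc u * H.disc z - bl H u z ^ 2 := by
  have hr : H.IsHodge (H.disc u • z + (-(bl H u z)) • u) :=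
    H.isHodge_add (H.isHodge_smul _ hz) (H.isHodge_smul _ hu)
  have h1 := disc_nonneg hH hr
  rw [disc_lin hH, bl_comm hH z u] at h1
  have h2 : H.disc z * H.disc u ^ 2 + 2 * bl H u z * H.disc u * -bl H u z +
      H.disc u * (-bl H u z) ^ 2 = H.disc u * (H.disc u * H.disc z - bl H u z ^ 2) := by ring
  rw [h2] at h1
  exact nonneg_of_mul_nonneg_right h1 h0

/-- **The local-global principle.** -/
theorem main (hH : H.IsCohomology) (hM : Meyer)
    (hrank : ∃ v w, H.IsHodge v ∧ H.IsHodge w ∧ H.disc v * H.disc w - bl H v w ^ 2 ≠ 0)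
    (h2 : ∃ v, H.IsHodge v ∧ ¬ 4 ∣ H.disc v)
    (h3 : ∃ v, H.IsHodge v ∧ (H.disc v % 3 = 2 ∨ H.disc v % 9 = 6))
    (hp : ∀ p : ℕ, p.Prime → p % 3 = 2 → p ≠ 2 → ∃ v, H.IsHodge v ∧ ¬ (p : ℤ) ∣ H.disc v) :
    ∃ d, Admissible d ∧ InDivisor H d := by
  obtain ⟨v2, hv2, hd2⟩ := h2
  obtain ⟨v3, hv3, hd3⟩ := h3
  obtain ⟨G, hG0, hG, hGp⟩ := exists_content hH ⟨v2, hv2, fun h => hd2 (by rw [h]; exact dvd_zero 4)⟩
  have hGz : (0 : ℤ) < G := by exact_mod_cast hG0
  -- the normalized values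
  obtain ⟨g, hg⟩ : ∃ g : hodgeSub H → ℤ, ∀ v : hodgeSub H, H.disc v = 2 * G * g v := by
    have h1 : ∀ v : hodgeSub H, ∃ c : ℤ, H.disc v = 2 * G * c := by
      intro v
      obtain ⟨c, hc⟩ := hG v v.2
      exact ⟨c, by rw [hc]; push_cast; ring⟩
    choose g hg using h1
    exact ⟨g, hg⟩
  -- the prime factors of the content
  have hGpr : ∀ p : ℕ, p.Prime → p ∣ G → p % 3 ≠ 2 := by
    intro p hpp hpG h
    by_cases hp2 : p = 2
    · subst hp2
      apply hd2
      obtain ⟨c, hc⟩ := hG v2 hv2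
      obtain ⟨e, he⟩ := hpG
      exact ⟨e * c, by rw [hc, he]; push_cast; ring⟩
    · obtain ⟨v, hv, hvd⟩ := hp p hpp h hp2
      apply hvd
      obtain ⟨c, hc⟩ := hG v hv
      obtain ⟨e, he⟩ := hpG
      exact ⟨2 * e * c, by rw [hc, he]; push_cast; ring⟩
  have h9 : ¬ 9 ∣ G := by
    rintro ⟨e, he⟩
    obtain ⟨c, hc⟩ := hG v3 hv3
    have h1 : H.disc v3 = 9 * (2 * e * c) := by
      rw [hc, he]
      push_cast
      ring
    omega
  -- a class with a normalized value which is one modulo three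
  obtain ⟨u0, hu0⟩ : ∃ u0 : hodgeSub H, g u0 % 3 = 1 := by
    by_cases h3G : 3 ∣ G
    · obtain ⟨G1, hG1⟩ := h3G
      have h1 : G1 % 3 = 1 := by
        refine mod_three_of_primes G1 (by omega) fun p hpp hpG => ?_
        have h4 := hGpr p hpp (hG1 ▸ Dvd.dvd.mul_left hpG 3)
        have h5 : p % 3 ≠ 0 := by
          intro h
          have h6 := (Nat.prime_dvd_prime_iff_eq Nat.prime_three hpp).1 (Nat.dvd_of_mod_eq_zero h)
          apply h9
          obtain ⟨e, he⟩ := hpG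
          exact ⟨e, by rw [hG1, he, ← h6]; ring⟩
        omega
      refine ⟨⟨v3, hv3⟩, ?_⟩
      have h4 := hg ⟨v3, hv3⟩
      have h5 : H.disc v3 = 6 * ((G1 : ℤ) * g ⟨v3, hv3⟩) := by
        have : H.disc v3 = 2 * G * g ⟨v3, hv3⟩ := h4
        rw [this, hG1]
        push_cast
        ring
      obtain ⟨i, hi⟩ : ∃ i : ℤ, (G1 : ℤ) = 3 * i + 1 := ⟨(G1 : ℤ) / 3, by omega⟩
      have h6 : ((G1 : ℤ) * g ⟨v3, hv3⟩) % 3 = 1 := by omega
      rw [hi] at h6
      have h7 : (3 * i + 1) * g ⟨v3, hv3⟩ = 3 * (i * g ⟨v3, hv3⟩) + g ⟨v3, hv3⟩ := by ring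
      rw [h7] at h6
      omega
    · have h1 : G % 3 = 1 := by
        refine mod_three_of_primes G (by omega) fun p hpp hpG => ?_
        have h4 := hGpr p hpp hpG
        have h5 : p % 3 ≠ 0 := by
          intro h
          have h6 := (Nat.prime_dvd_prime_iff_eq Nat.prime_three hpp).1 (Nat.dvd_of_mod_eq_zero h)
          rw [h6] at h3G
          exact h3G hpG
        omega
      obtain ⟨v, hv, hvd⟩ := hGp 3 Nat.prime_three
      have h4 : H.disc v = 2 * G * g ⟨v, hv⟩ := hg ⟨v, hv⟩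
      refine ⟨⟨v, hv⟩, ?_⟩
      have h5 := disc_mod_three (H := H) v
      have h6 : ¬ g ⟨v, hv⟩ % 3 = 0 := by
        intro h
        apply hvd
        obtain ⟨c, hc⟩ := Int.dvd_of_emod_eq_zero h
        exact ⟨c, by rw [h4, hc]; push_cast; ring⟩
      obtain ⟨i, hi⟩ : ∃ i : ℤ, (G : ℤ) = 3 * i + 1 := ⟨(G : ℤ) / 3, by omega⟩
      have h7 : H.disc v = 3 * (2 * i * g ⟨v, hv⟩) + 2 * g ⟨v, hv⟩ := by
        rw [h4, hi]
        ring
      rw [h7] at h5
      omega
  have hn0 : 0 < g u0 := by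
    have h1 := disc_nonneg hH u0.2
    have h4 := hg u0
    rw [h4] at h1
    have h5 : 0 ≤ g u0 := by
      by_contra hcon
      push Not at hcon
      nlinarith
    omega
  have hdu0 : 0 < H.disc u0 := by
    rw [hg u0]
    positivity
  -- the normalized form
  have hB : ∀ (u z : hodgeSub H) (x y : ℤ), H.disc (x • (u : Fin 23 → ℤ) + y • (z : Fin 23 → ℤ)) =
      2 * G * (g u * x ^ 2 + (g (u + z) - g u - g z) * x * y + g z * y ^ 2) := by
    intro u z x y
    have h1 := disc_lin hH (u : Fin 23 → ℤ) z 1 1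
    have h4 := hg (u + z)
    have h5 := hg u
    have h6 := hg z
    rw [one_smul, one_smul] at h1
    have h7 : H.disc ((u : Fin 23 → ℤ) + z) = 2 * G * g (u + z) := h4
    rw [disc_lin hH]
    rw [h7, h5, h6] at h1
    rw [h5, h6]
    linear_combination (-(x * y)) * h1
  have hgs : ∀ (u z : hodgeSub H) (s : ℤ), g (u + s • z) =
      g u + (g (u + z) - g u - g z) * s + g z * s ^ 2 := by
    intro u z s
    have h1 := hB u z 1 s
    have h4 : H.disc ((u : Fin 23 → ℤ) + s • (z : Fin 23 → ℤ)) = 2 * G * g (u + s • z) :=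
      hg (u + s • z)
    rw [one_smul, h4] at h1
    have h5 : (2 * (G : ℤ)) ≠ 0 := by positivity
    have h6 := mul_left_cancel₀ h5 h1
    rw [h6]
    ring
  have hgd : ∀ (p s : ℤ) (u z : hodgeSub H), p ∣ s → p ∣ g (u + s • z) - g u := by
    rintro p s u z ⟨e, he⟩
    rw [hgs, he]
    exact ⟨(g (u + z) - g u - g z) * e + g z * p * e ^ 2, by ring⟩
  have hgprim : ∀ p : ℕ, p.Prime → ∃ z : hodgeSub H, True ∧ ¬ (p : ℤ) ∣ g z := by
    intro p hpp
    obtain ⟨v, hv, hvd⟩ := hGp p hpp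
    refine ⟨⟨v, hv⟩, trivial, fun h => hvd ?_⟩
    obtain ⟨c, hc⟩ := h
    have h4 : H.disc v = 2 * G * g ⟨v, hv⟩ := hg ⟨v, hv⟩
    exact ⟨c, by rw [h4, hc]; push_cast; ring⟩
  -- a class whose normalized value is prime to that of `u0`
  obtain ⟨z0, -, -, hz0⟩ := exists_coprime g hgd (fun _ => True) (fun _ _ _ _ _ => trivial)
    (g u0) hn0.ne' (u := u0) trivial 1 one_ne_zero isCoprime_one_right hgprim
  rw [one_mul] at hz0
  obtain ⟨z, hzc, hzD⟩ : ∃ z : hodgeSub H, IsCoprime (g z) (g u0) ∧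
      H.disc u0 * H.disc z - bl H u0 z ^ 2 ≠ 0 := by
    by_cases hD : H.disc u0 * H.disc z0 - bl H (u0 : Fin 23 → ℤ) z0 ^ 2 = 0
    · obtain ⟨v, w, hv, hw, hvw⟩ := hrank
      obtain ⟨z2, hz2, hz2D⟩ := exists_indep hH hv hw hvw u0.2 hdu0.ne'
      refine ⟨z0 + g u0 • (⟨z2, hz2⟩ : hodgeSub H), ?_, ?_⟩
      · obtain ⟨e, he⟩ := hgd (g u0) (g u0) z0 ⟨z2, hz2⟩ dvd_rfl
        have h4 : g (z0 + g u0 • (⟨z2, hz2⟩ : hodgeSub H)) = g z0 + g u0 * e := by linarith
        rw [h4]
        exact IsCoprime.add_mul_left_left hz0 e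
      · have h4 := det_add hH (y := z2) u0.2 z0.2 hD (g u0)
        rw [one_smul] at h4
        have h5 : ((z0 + g u0 • (⟨z2, hz2⟩ : hodgeSub H) : hodgeSub H) : Fin 23 → ℤ) =
            (z0 : Fin 23 → ℤ) + g u0 • z2 := rfl
        rw [h5, h4]
        exact mul_ne_zero (pow_ne_zero 2 hn0.ne') hz2D
    · exact ⟨z0, hz0, hD⟩
  -- the binary form
  obtain ⟨B, hBdef⟩ : ∃ B, B = g (u0 + z) - g u0 - g z := ⟨_, rfl⟩
  have hQ : ∀ x y : ℤ, H.disc (x • (u0 : Fin 23 → ℤ) + y • (z : Fin 23 → ℤ)) =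
      2 * G * (g u0 * x ^ 2 + B * x * y + g z * y ^ 2) := by
    intro x y
    rw [hB, hBdef]
  have hdet : H.disc u0 * H.disc z - bl H u0 z ^ 2 = G ^ 2 * (4 * g u0 * g z - B ^ 2) := by
    have h1 := disc_lin hH (u0 : Fin 23 → ℤ) z 1 1
    have h4 := hQ 1 1
    rw [h4, hg u0, hg z] at h1
    have h5 : bl H (u0 : Fin 23 → ℤ) z = G * B := by linarith
    rw [h5, hg u0, hg z]
    ring
  have hpos : B ^ 2 < 4 * g u0 * g z := by
    have h1 := det_nonneg hH u0.2 z.2 hdu0
    have h4 : 0 < G ^ 2 * (4 * g u0 * g z - B ^ 2) := by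
      rw [← hdet]
      exact lt_of_le_of_ne h1 (Ne.symm hzD)
    have h5 : (0 : ℤ) < G ^ 2 := by positivity
    have := (pos_iff_pos_of_mul_pos h4).1 h5
    linarith
  have hprim2 : ∀ k : ℤ, k ∣ g u0 → k ∣ B → k ∣ g z → IsUnit k := by
    intro k h1 _ h4
    exact hzc.isUnit_of_dvd' h4 h1
  -- a value which is prime to the discriminant and one modulo three
  obtain ⟨⟨x, y⟩, -, hxy3, hxyc⟩ := exists_coprime (V := ℤ × ℤ)
    (fun t => g u0 * t.1 ^ 2 + B * t.1 * t.2 + g z * t.2 ^ 2) (by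
      rintro p s ⟨a, b⟩ ⟨c, d⟩ ⟨e, he⟩
      have h1 : (a, b) + s • (c, d) = (a + s * c, b + s * d) := rfl
      rw [h1]
      dsimp only
      rw [he]
      exact ⟨g u0 * (2 * a * e * c + p * e ^ 2 * c ^ 2) + B * (a * e * d + e * c * b +
        p * e ^ 2 * c * d) + g z * (2 * b * e * d + p * e ^ 2 * d ^ 2), by ring⟩)
    (fun _ => True) (fun _ _ _ _ _ => trivial) (B ^ 2 - 4 * g u0 * g z) (by linarith)
    (u := ((1 : ℤ), (0 : ℤ))) trivial 3 (by norm_num) (by
      dsimp only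
      have h1 : g u0 * 1 ^ 2 + B * 1 * 0 + g z * 0 ^ 2 = g u0 := by ring
      rw [h1]
      obtain ⟨i, hi⟩ : ∃ i, g u0 = 3 * i + 1 := ⟨g u0 / 3, by omega⟩
      exact ⟨1, -i, by rw [hi]; ring⟩) (by
      intro p hpp
      by_cases h : (p : ℤ) ∣ g u0
      · refine ⟨((0 : ℤ), (1 : ℤ)), trivial, fun h4 => ?_⟩
        dsimp only at h4
        have h1 : g u0 * 0 ^ 2 + B * 0 * 1 + g z * 1 ^ 2 = g z := by ring
        rw [h1] at h4
        have h5 := hzc.isUnit_of_dvd' h4 h
        exact hpp.ne_one (by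
          have := Int.isUnit_iff.1 h5
          omega)
      · refine ⟨((1 : ℤ), (0 : ℤ)), trivial, fun h4 => ?_⟩
        dsimp only at h4
        have h1 : g u0 * 1 ^ 2 + B * 1 * 0 + g z * 0 ^ 2 = g u0 := by ring
        rw [h1] at h4
        exact h h4)
  dsimp only at hxy3 hxyc
  obtain ⟨q, hq, hqN, ⟨a, b, hab⟩, hq3⟩ := hM (g u0) B (g z) 3 x y hn0 hpos hprim2 (by norm_num)
    hxyc 3
  have hq1 : q % 3 = 1 := by
    have h1 := dvd_add hq3 hxy3
    have h4 : g u0 * 1 ^ 2 + B * 1 * 0 + g z * 0 ^ 2 = g u0 := by ring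
    rw [h4] at h1
    have h5 : (q : ℤ) - (g u0 * x ^ 2 + B * x * y + g z * y ^ 2) +
        (g u0 * x ^ 2 + B * x * y + g z * y ^ 2 - g u0) = q - g u0 := by ring
    rw [h5] at h1
    omega
  have hdisc : H.disc (a • (u0 : Fin 23 → ℤ) + b • (z : Fin 23 → ℤ)) = 2 * G * q := by
    rw [hQ, hab]
  refine k3_of_disc hH (H.isHodge_add (H.isHodge_smul a u0.2) (H.isHodge_smul b z.2)) ?_
  rw [hdisc]
  have hGodd : G % 2 = 1 := by
    by_contra hcon
    exact hGpr 2 Nat.prime_two (Nat.dvd_of_mod_eq_zero (by omega)) (by norm_num)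
  have hqodd : q % 2 = 1 := by
    rcases hq.eq_two_or_odd with h | h
    · omega
    · exact h
  have hcast : (2 * G * q : ℤ) = ((2 * G * q : ℕ) : ℤ) := by push_cast; ring
  refine ⟨?_, ?_, ?_, ?_⟩
  · have h1 : (1 : ℤ) ≤ G := hGz
    have h4 : (3 : ℤ) < q := by exact_mod_cast hqN
    nlinarith
  · intro h
    rw [hcast] at h
    have h1 : 4 ∣ 2 * G * q := by exact_mod_cast h
    have h4 : (G * q) % 2 = 1 := by rw [Nat.mul_mod, hGodd, hqodd]
    rw [mul_assoc] at h1
    omega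
  · intro h
    rw [hcast] at h
    have h1 : 9 ∣ 2 * G * q := by exact_mod_cast h
    have hc : Nat.Coprime 9 (2 * q) := by
      have h4 : Nat.Coprime 3 (2 * q) := by
        refine (Nat.Prime.coprime_iff_not_dvd Nat.prime_three).2 fun hd => ?_
        omega
      have : Nat.Coprime (3 ^ 2) (2 * q) := Nat.Coprime.pow_left 2 h4
      exact this
    have h4 : 2 * G * q = G * (2 * q) := by ring
    rw [h4] at h1
    exact h9 (hc.dvd_of_dvd_mul_right h1)
  · intro p hpp hp2 hd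
    rw [hcast] at hd
    have h1 : p ∣ 2 * G * q := by exact_mod_cast hd
    rcases (hpp.dvd_mul).1 h1 with h | h
    · rcases (hpp.dvd_mul).1 h with h | h
      · exact absurd ((Nat.prime_dvd_prime_iff_eq hpp Nat.prime_two).1 h) hp2
      · exact hGpr p hpp h
    · rw [(Nat.prime_dvd_prime_iff_eq hpp hq).1 h]
      omega

/-- dependent classes -/
theorem disc_of_det (hH : H.IsCohomology) {v w : Fin 23 → ℤ} (hv : H.IsHodge v)
    (hsat : H.Saturated v) (hw : H.IsHodge w) (hd : H.disc v ≠ 0)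
    (h0 : H.disc v * H.disc w - bl H v w ^ 2 = 0) : ∃ b : ℤ, H.disc w = b ^ 2 * H.disc v := by
  have hnull : ∀ x, bl H (H.disc v • w + (-(bl H v w)) • v) x = 0 := by
    intro x
    have h1 := bl_of_det hH hv hw h0 x
    rw [bl_add_left, bl_smul_left, bl_smul_left]
    linarith
  obtain ⟨r, hr⟩ : ∃ r, r = H.disc v • w + (-(bl H v w)) • v := ⟨_, rfl⟩
  rw [← hr] at hnull
  have hrH : H.IsHodge r := by
    rw [hr]
    exact H.isHodge_add (H.isHodge_smul _ hw) (H.isHodge_smul _ hv)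
  have h3r : (3 : ℤ) • r = H.ip H.h r • H.h := by
    by_contra hne
    have h1 : H.IsHodge ((3 : ℤ) • r - H.ip H.h r • H.h) :=
      H.isHodge_sub (H.isHodge_smul _ hrH) (H.isHodge_smul _ hH.h_hodge)
    have h3 := hH.pos _ h1 (sub_ne_zero.2 hne)
    have h4 : H.ip ((3 : ℤ) • r - H.ip H.h r • H.h) ((3 : ℤ) • r - H.ip H.h r • H.h) =
        3 * bl H r r := by
      simp only [bl, H.ip_sub_left, H.ip_sub_right, H.ip_smul_left,
        H.ip_smul_right, hH.h_self, hH.comm r H.h]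
      ring
    rw [h4, hnull] at h3
    norm_num at h3
  obtain ⟨a', b', hab⟩ := hsat w (3 * H.disc v) (H.ip H.h r)
    (3 * bl H v w) (by omega) (by
      rw [← h3r, hr, smul_add, smul_smul, smul_smul, mul_smul 3 (H.disc v) w,
        ← mul_smul]
      rw [add_assoc, ← add_smul]
      have : 3 * -(bl H v w) + 3 * bl H v w = 0 := by ring
      rw [this, zero_smul, add_zero])
  refine ⟨b', ?_⟩
  rw [hab, add_comm]
  exact hH.disc_comb b' a' v

/-- **The local-global principle**, lattices of rank at most two. -/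
theorem main_small (hH : H.IsCohomology)
    (hrank : ∀ v w, H.IsHodge v → H.IsHodge w → H.disc v * H.disc w - bl H v w ^ 2 = 0)
    (h2 : ∃ v, H.IsHodge v ∧ ¬ 4 ∣ H.disc v)
    (h3 : ∃ v, H.IsHodge v ∧ (H.disc v % 3 = 2 ∨ H.disc v % 9 = 6))
    (hp : ∀ p : ℕ, p.Prime → p % 3 = 2 → p ≠ 2 → ∃ v, H.IsHodge v ∧ ¬ (p : ℤ) ∣ H.disc v) :
    ∃ d, Admissible d ∧ InDivisor H d := by
  obtain ⟨v2, hv2, hd2⟩ := h2
  obtain ⟨v3, hv3, hd3⟩ := h3
  have h0 := disc_nonneg hH hv2
  obtain ⟨w, m, hm, hw, hsat, hd⟩ := exists_sat hH hv2 (lt_of_le_of_ne h0 (fun h => hd2 (by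
    rw [← h]
    exact dvd_zero 4)))
  have hwne : H.disc w ≠ 0 := fun h => hd2 (by rw [hd, h, mul_zero]; exact dvd_zero 4)
  have hall : ∀ v, H.IsHodge v → ∃ b : ℤ, H.disc v = b ^ 2 * H.disc w := fun v hv =>
    disc_of_det hH hw hsat hv hwne (hrank w v hw hv)
  have hw0 := disc_nonneg hH hw
  have hwp : 0 < H.disc w := lt_of_le_of_ne hw0 (Ne.symm hwne)
  refine ⟨H.disc w, ⟨hH.six_lt hw hwp, fun h => ?_, fun h => ?_, fun p hpp hp2 h h3' => ?_⟩,
    w, hw, hsat, rfl⟩
  · exact hd2 (by rw [hd]; exact Dvd.dvd.mul_left h _)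
  · obtain ⟨b, hb⟩ := hall v3 hv3
    have h1 : (9 : ℤ) ∣ H.disc v3 := by rw [hb]; exact Dvd.dvd.mul_left h _
    omega
  · obtain ⟨v, hv, hvd⟩ := hp p hpp h3' hp2
    obtain ⟨b, hb⟩ := hall v hv
    exact hvd (by rw [hb]; exact Dvd.dvd.mul_left h _)

end Pool.Agent.X328.CF.LocGlob
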