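import Pool.Agent.X328.CF.E8
import Pool.Agent.Y95.Q.K3

/-! # Discriminants of the Hodge classes of cubic fourfolds with a sublattice `E₈(2)` -/

set_option autoImplicit false

namespace Pool.Agent.X328.CF

open Finset Pool.Agent.Y95.Q Pool.Agent.Y95.Q.H4

theorem qf_even (c : Fin 8 → ℤ) : Even (qf c) := by
  refine ⟨c 0 ^ 2 + c 1 ^ 2 + c 2 ^ 2 + c 3 ^ 2 + c 4 ^ 2 + c 5 ^ 2 + c 6 ^ 2 + c 7 ^ 2
    - c 0 * c 2 - c 1 * c 3 - c 2 * c 3 - c 3 * c 4 - c 4 * c 5 - c 5 * c 6 - c 6 * c 7, ?_⟩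
  unfold qf CartanMatrix.E₈
  simp only [Fin.sum_univ_eight]
  simp [Matrix.cons_val]
  ring

theorem qf_nonneg (c : Fin 8 → ℤ) : 0 ≤ qf c := by
  have h1 := sum_Y c
  have h2 := sum_sq_nonneg Finset.univ (Y c)
  linarith

/-- the bilinear form -/
def bf (c d : Fin 8 → ℤ) : ℤ := ∑ i, ∑ j, c i * CartanMatrix.E₈ i j * d j

theorem bf_symm (c d : Fin 8 → ℤ) : bf c d = bf d c := by
  unfold bf
  rw [Finset.sum_comm]
  refine Finset.sum_congr rfl fun i _ => Finset.sum_congr rfl fun j _ => ?_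
  have h : CartanMatrix.E₈ j i = CartanMatrix.E₈ i j := by
    have := congrFun (congrFun CartanMatrix.E₈_transpose i) j
    rwa [Matrix.transpose_apply] at this
  rw [h]
  ring

theorem qf_lin (c d : Fin 8 → ℤ) (a : ℤ) :
    qf (fun i => c i + a * d i) = qf c + 2 * a * bf d c + a ^ 2 * qf d := by
  have h1 : qf (fun i => c i + a * d i) = qf c + a * bf c d + a * bf d c + a ^ 2 * qf d := by
    unfold qf bf
    simp only [Finset.mul_sum, ← Finset.sum_add_distrib]
    exact Finset.sum_congr rfl fun i _ => Finset.sum_congr rfl fun j _ => by ring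
  rw [h1, bf_symm c d]
  ring

variable {X : CubicFourfold} {H : H4 X}

/-- adding an element of the lattice to a class -/
theorem disc_add (hH : H.IsCohomology) {s : Fin 8 → Fin 23 → ℤ}
    (hs : ∀ i j, H.ip (s i) (s j) = 2 * CartanMatrix.E₈ i j) (hsh : ∀ i, H.ip (s i) H.h = 0)
    (v : Fin 23 → ℤ) (e c : Fin 8 → ℤ)
    (he : ∀ i, ∑ j, CartanMatrix.E₈ i j * e j = H.ip (s i) v) :
    H.disc (v + ∑ i, c i • s i) = H.disc v + 6 * bf c e + 6 * qf c := by
  have h1 : H.ip (∑ i, c i • s i) v = bf c e := by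
    rw [ip_sum_left]
    unfold bf
    refine Finset.sum_congr rfl fun i _ => ?_
    rw [ip_smul_left, ← he i, Finset.mul_sum]
    exact Finset.sum_congr rfl fun j _ => by ring
  have h2 : H.ip (∑ i, c i • s i) (∑ i, c i • s i) = 2 * qf c := by
    rw [ip_sum_left]
    unfold qf
    rw [Finset.mul_sum]
    refine Finset.sum_congr rfl fun i _ => ?_
    rw [ip_sum_right, Finset.mul_sum]
    refine Finset.sum_congr rfl fun j _ => ?_
    rw [ip_smul_left, ip_smul_right, hs]
    ring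
  have h3 : H.ip H.h (∑ i, c i • s i) = 0 := by
    rw [ip_sum_right]
    refine Finset.sum_eq_zero fun i _ => ?_
    rw [ip_smul_right, hH.comm, hsh, mul_zero]
  simp only [disc, ip_add_left, ip_add_right, h2, h3, h1, hH.comm v (∑ i, c i • s i)]
  ring

theorem hodge_add {s : Fin 8 → Fin 23 → ℤ} (hsH : ∀ i, H.IsHodge (s i)) {v : Fin 23 → ℤ}
    (hv : H.IsHodge v) (c : Fin 8 → ℤ) : H.IsHodge (v + ∑ i, c i • s i) :=
  H.isHodge_add hv (H.isHodge_sum _ _ fun i _ => H.isHodge_smul _ (hsH i))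

/-- the progression of difference six -/
theorem prog_odd (hH : H.IsCohomology) {s : Fin 8 → Fin 23 → ℤ} (hsH : ∀ i, H.IsHodge (s i))
    (hs : ∀ i j, H.ip (s i) (s j) = 2 * CartanMatrix.E₈ i j) (hsh : ∀ i, H.ip (s i) H.h = 0)
    {v : Fin 23 → ℤ} (hv : H.IsHodge v) (hodd : ∃ i, Odd (H.ip (s i) v)) (j : ℕ) :
    ∃ w, H.IsHodge w ∧ H.disc w = H.disc v + 6 * j := by
  obtain ⟨e, he⟩ := e8_dual fun i => H.ip (s i) v
  have heo : ∃ i, e i % 2 = 1 := by
    by_contra hcon
    push Not at hcon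
    obtain ⟨i, hi⟩ := hodd
    rw [← Int.not_even_iff_odd, ← he i] at hi
    refine hi (Finset.even_sum _ fun j _ => ?_)
    have h1 := hcon j
    have h2 : Even (e j) := Int.even_iff.2 (by omega)
    exact h2.mul_left _
  obtain ⟨c, hc⟩ := e8_coset e heo j
  refine ⟨v + ∑ i, c i • s i, hodge_add hsH hv c, ?_⟩
  rw [disc_add hH hs hsh v e c he]
  rw [qf_lin] at hc
  linarith

/-- the progression of difference twelve -/
theorem prog_even (hH : H.IsCohomology) {s : Fin 8 → Fin 23 → ℤ} (hsH : ∀ i, H.IsHodge (s i))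
    (hs : ∀ i j, H.ip (s i) (s j) = 2 * CartanMatrix.E₈ i j) (hsh : ∀ i, H.ip (s i) H.h = 0)
    {v : Fin 23 → ℤ} (hv : H.IsHodge v) (hev : ∀ i, Even (H.ip (s i) v)) (j : ℕ) :
    ∃ w, H.IsHodge w ∧ H.disc w = H.disc v + 12 * j := by
  choose f hf using hev
  obtain ⟨e, he⟩ := e8_dual f
  obtain ⟨n, hn⟩ := qf_even e
  have hn0 := qf_nonneg e
  obtain ⟨c, hc⟩ := e8_all (n.toNat + j)
  have hnn : (n.toNat : ℤ) = n := Int.toNat_of_nonneg (by omega)
  refine ⟨v + ∑ i, (c i - e i) • s i, hodge_add hsH hv _, ?_⟩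
  have he2 : ∀ i, ∑ j, CartanMatrix.E₈ i j * (2 * e j) = H.ip (s i) v := by
    intro i
    rw [hf i, ← he i, ← two_mul, Finset.mul_sum]
    exact Finset.sum_congr rfl fun j _ => by ring
  rw [disc_add hH hs hsh v (fun i => 2 * e i) (fun i => c i - e i) he2]
  have h1 : bf (fun i => c i - e i) (fun i => 2 * e i) = 2 * bf (fun i => c i - e i) e := by
    unfold bf
    simp only [Finset.mul_sum]
    exact Finset.sum_congr rfl fun i _ => Finset.sum_congr rfl fun j _ => by ring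
  have h2 : qf c = qf (fun i => (c i - e i) + 1 * e i) := by
    congr 1
    funext i
    ring
  have h3 := qf_lin (fun i => c i - e i) e 1
  rw [bf_symm e] at h3
  push_cast at hc
  rw [hnn] at hc
  rw [h1]
  rw [← h2] at h3
  linarith

theorem disc_nonneg (hH : H.IsCohomology) {v : Fin 23 → ℤ} (hv : H.IsHodge v) :
    0 ≤ H.disc v := by
  have h1 : H.IsHodge ((3 : ℤ) • v - H.ip H.h v • H.h) :=
    H.isHodge_sub (H.isHodge_smul _ hv) (H.isHodge_smul _ hH.h_hodge)
  have h2 := hH.nonneg h1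
  have h3 : H.ip ((3 : ℤ) • v - H.ip H.h v • H.h) ((3 : ℤ) • v - H.ip H.h v • H.h) =
      3 * H.disc v := by
    simp only [disc, ip_sub_left, ip_sub_right, ip_smul_left, ip_smul_right, hH.h_self,
      hH.comm v H.h]
    ring
  rw [h3] at h2
  linarith

theorem disc_even (hH : H.IsCohomology) (v : Fin 23 → ℤ) : H.disc v % 2 = 0 := by
  have h1 := hH.char v
  have h2 : H.ip v H.h = H.ip H.h v := hH.comm _ _
  rw [h2] at h1
  have h3 : H.disc v = 2 * H.ip v v + (H.ip v v - H.ip H.h v) +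
      -(H.ip H.h v * (H.ip H.h v - 1)) := by
    simp only [disc]
    ring
  rw [h3]
  exact Int.even_iff.1 (((even_two_mul _).add h1).add (Int.even_mul_pred_self _).neg)

theorem disc_mod_three (v : Fin 23 → ℤ) : H.disc v % 3 = 0 ∨ H.disc v % 3 = 2 := by
  unfold disc
  have h1 : H.ip H.h v % 3 = 0 ∨ H.ip H.h v % 3 = 1 ∨ H.ip H.h v % 3 = 2 := by omega
  obtain ⟨q, hq⟩ : ∃ q, H.ip H.h v = 3 * q + H.ip H.h v % 3 := ⟨H.ip H.h v / 3, by omega⟩
  generalize H.ip H.h v = y at *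
  generalize H.ip v v = z
  rcases h1 with h | h | h
  · left
    rw [h, add_zero] at hq
    have : 3 * z - y ^ 2 = 3 * (z - 3 * q ^ 2) := by rw [hq]; ring
    omega
  · right
    rw [h] at hq
    have : 3 * z - y ^ 2 = 3 * (z - 3 * q ^ 2 - 2 * q) - 1 := by rw [hq]; ring
    omega
  · right
    rw [h] at hq
    have : 3 * z - y ^ 2 = 3 * (z - 3 * q ^ 2 - 4 * q - 1) - 1 := by rw [hq]; ring
    omega

/-- passing to a saturated group -/
theorem exists_sat (hH : H.IsCohomology) {v : Fin 23 → ℤ} (hv : H.IsHodge v)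
    (h0 : 0 < H.disc v) : ∃ (w : Fin 23 → ℤ) (m : ℤ), 0 < m ∧ H.IsHodge w ∧ H.Saturated w ∧
      H.disc v = m ^ 2 * H.disc w := by
  obtain ⟨w, m, l, hm, hsat, hw⟩ := hH.exists_saturated _ h0
  refine ⟨w, m, hm, ?_, hsat, ?_⟩
  · refine H.isHodge_of_smul hm.ne' ?_
    have h1 : m • w = v - l • H.h := by
      rw [hw]
      abel
    rw [h1]
    exact H.isHodge_sub hv (H.isHodge_smul _ hH.h_hodge)
  · rw [hw, hH.disc_comb]

/-- a squarefree discriminant -/
theorem sat_of_squarefree (hH : H.IsCohomology) {v : Fin 23 → ℤ} (hv : H.IsHodge v)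
    (h0 : 0 < H.disc v) (hsq : Squarefree (H.disc v)) :
    ∃ w, H.IsHodge w ∧ H.Saturated w ∧ H.disc w = H.disc v := by
  obtain ⟨w, m, hm, hw, hsat, hd⟩ := exists_sat hH hv h0
  have h1 : IsUnit m := hsq m ⟨H.disc w, by rw [hd]; ring⟩
  have h2 : m = 1 := by
    rcases Int.isUnit_iff.1 h1 with h | h <;> omega
  refine ⟨w, hw, hsat, ?_⟩
  rw [hd, h2]
  ring

/-- admissible discriminants -/
theorem admissible_of_prime {p : ℕ} (hp : p.Prime) (h1 : p % 6 = 1) (h7 : 3 < p) :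
    Admissible (2 * p) ∧ Admissible (6 * p) := by
  have hp2 : p % 2 = 1 := by omega
  have hp3 : p % 3 = 1 := by omega
  have h9 : ¬ (3 : ℤ) ∣ p := by omega
  refine ⟨⟨by omega, by omega, fun h => ?_, fun q hq hq2 hd => ?_⟩,
    ⟨by omega, by omega, fun h => ?_, fun q hq hq2 hd => ?_⟩⟩
  · apply h9
    omega
  · have hd' : q ∣ 2 * p := by exact_mod_cast hd
    rcases (hq.dvd_mul).1 hd' with h | h
    · exact absurd ((Nat.prime_dvd_prime_iff_eq hq Nat.prime_two).1 h) hq2
    · rw [(Nat.prime_dvd_prime_iff_eq hq hp).1 h]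
      omega
  · apply h9
    omega
  · have hd' : q ∣ 6 * p := by exact_mod_cast hd
    rcases (hq.dvd_mul).1 hd' with h | h
    · have h' : q ∣ 2 * 3 := h
      rcases (hq.dvd_mul).1 h' with h | h
      · exact absurd ((Nat.prime_dvd_prime_iff_eq hq Nat.prime_two).1 h) hq2
      · rw [(Nat.prime_dvd_prime_iff_eq hq Nat.prime_three).1 h]
        norm_num
    · rw [(Nat.prime_dvd_prime_iff_eq hq hp).1 h]
      omega

/-- **Associated K3 surfaces.** -/
theorem hasK3 (hH : H.IsCohomology) {s : Fin 8 → Fin 23 → ℤ} (hsH : ∀ i, H.IsHodge (s i))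
    (hs : ∀ i j, H.ip (s i) (s j) = 2 * CartanMatrix.E₈ i j) (hsh : ∀ i, H.ip (s i) H.h = 0)
    {v : Fin 23 → ℤ} (hv : H.IsHodge v) (h4 : ¬ 4 ∣ H.disc v) :
    ∃ w, H.IsHodge w ∧ H.Saturated w ∧ Admissible (H.disc w) := by
  have h0 := disc_nonneg hH hv
  have h2 := disc_even hH v
  have h3 := disc_mod_three (H := H) v
  -- all large numbers in the class modulo twelve are discriminants
  have prog : ∀ D : ℤ, H.disc v ≤ D → (D - H.disc v) % 12 = 0 →
      ∃ w, H.IsHodge w ∧ H.disc w = D := by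
    intro D hD h12
    by_cases hev : ∀ i, Even (H.ip (s i) v)
    · obtain ⟨w, hw, hd⟩ := prog_even hH hsH hs hsh hv hev ((D - H.disc v) / 12).toNat
      refine ⟨w, hw, ?_⟩
      rw [hd, Int.toNat_of_nonneg (by omega)]
      omega
    · push Not at hev
      obtain ⟨i, hi⟩ := hev
      obtain ⟨w, hw, hd⟩ := prog_odd hH hsH hs hsh hv ⟨i, Int.not_even_iff_odd.1 hi⟩
        ((D - H.disc v) / 6).toNat
      refine ⟨w, hw, ?_⟩
      rw [hd, Int.toNat_of_nonneg (by omega)]
      omega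
  obtain ⟨p, hp, hgt, hmod⟩ := Nat.exists_prime_gt_modEq_one (k := 6) ((H.disc v).toNat + 3)
    (by norm_num)
  have hp6 : p % 6 = 1 := hmod
  have hpd : H.disc v + 3 < p := by
    have : (((H.disc v).toNat + 3 : ℕ) : ℤ) < p := by exact_mod_cast hgt
    push_cast at this
    rw [Int.toNat_of_nonneg h0] at this
    exact this
  obtain ⟨ha2, ha6⟩ := admissible_of_prime hp hp6 (by omega)
  have hpz : Prime (p : ℤ) := Nat.prime_iff_prime_int.1 hp
  have hfin : ∀ D : ℤ, Admissible D → Squarefree D → H.disc v ≤ D → (D - H.disc v) % 12 = 0 →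
      ∃ w, H.IsHodge w ∧ H.Saturated w ∧ Admissible (H.disc w) := by
    intro D hA hS hD h12
    obtain ⟨w, hw, hd⟩ := prog D hD h12
    obtain ⟨w', hw', hsat, hd'⟩ := sat_of_squarefree hH hw (by rw [hd]; have := hA.1; omega)
      (by rw [hd]; exact hS)
    exact ⟨w', hw', hsat, by rw [hd', hd]; exact hA⟩
  by_cases hcase : H.disc v % 12 = 2
  · refine hfin (2 * p) ha2 ?_ (by omega) (by omega)
    have h5 : Squarefree (2 * p) := by
      rw [Nat.squarefree_mul_iff]
      refine ⟨?_, Nat.prime_two.squarefree, hp.squarefree⟩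
      rw [Nat.coprime_primes Nat.prime_two hp]
      omega
    have h6 := Int.squarefree_natCast.2 h5
    exact_mod_cast h6
  · refine hfin (6 * p) ha6 ?_ (by omega) (by omega)
    have h5 : Squarefree (6 * p) := by
      rw [Nat.squarefree_mul_iff]
      refine ⟨?_, ?_, hp.squarefree⟩
      · rw [Nat.coprime_comm, hp.coprime_iff_not_dvd]
        intro hd
        have := Nat.le_of_dvd (by norm_num) hd
        interval_cases p <;> omega
      · have : (6 : ℕ) = 2 * 3 := rfl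
        rw [this, Nat.squarefree_mul_iff]
        exact ⟨by norm_num, Nat.prime_two.squarefree, Nat.prime_three.squarefree⟩
    have h6 := Int.squarefree_natCast.2 h5
    exact_mod_cast h6

end Pool.Agent.X328.CF
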