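import Mathlib

/-! # Sums of four squares and of four triangular numbers over a set of four elements -/

set_option autoImplicit false

namespace Pool.Agent.X328.CF

open Finset

/-- four squares, integer version -/
theorem four_sq (N : ℕ) : ∃ t : Fin 4 → ℤ, ∑ i, t i ^ 2 = N := by
  obtain ⟨a, b, c, d, h⟩ := Nat.sum_four_squares N
  refine ⟨![(a : ℤ), b, c, d], ?_⟩
  rw [Fin.sum_univ_four]
  simp only [Matrix.cons_val_zero, Matrix.cons_val_one, Matrix.cons_val]
  exact_mod_cast h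

/-- every natural number is a sum of four triangular numbers -/
theorem four_tri (N : ℕ) : ∃ t : Fin 4 → ℤ, ∑ i, t i * (t i + 1) = 2 * N := by
  obtain ⟨p, q, r, s, h⟩ := Nat.sum_four_squares (2 * N + 1)
  have h' : (p : ℤ) ^ 2 + q ^ 2 + r ^ 2 + s ^ 2 = 2 * N + 1 := by exact_mod_cast h
  have hodd : ((p : ℤ) + q + r + s) % 2 = 1 := by
    have h1 : ∀ x : ℤ, (x ^ 2 - x) % 2 = 0 := by
      intro x
      have h2 : x ^ 2 - x = x * (x - 1) := by ring
      rw [h2]
      exact Int.even_iff.1 (Int.even_mul_pred_self x)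
    have e1 := h1 p
    have e2 := h1 q
    have e3 := h1 r
    have e4 := h1 s
    omega
  obtain ⟨a, ha⟩ : ∃ a, (p : ℤ) + q + r + s = 2 * a + 1 := ⟨((p : ℤ) + q + r + s) / 2, by omega⟩
  refine ⟨![a, a - r - s, a - q - s, a - q - r], ?_⟩
  rw [Fin.sum_univ_four]
  simp only [Matrix.cons_val_zero, Matrix.cons_val_one, Matrix.cons_val]
  have hp : (p : ℤ) = 2 * a + 1 - q - r - s := by linarith
  rw [hp] at h'
  nlinarith [h']

/-- transport to a finset with four elements -/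
theorem on_finset {α : Type} [DecidableEq α] {S : Finset α} (hS : S.card = 4) (φ : ℤ → ℤ) (m : ℤ)
    (h : ∃ t : Fin 4 → ℤ, ∑ i, φ (t i) = m) : ∃ t : α → ℤ, ∑ i ∈ S, φ (t i) = m := by
  obtain ⟨t, ht⟩ := h
  let e := S.equivFinOfCardEq hS
  refine ⟨fun i => if hi : i ∈ S then t (e ⟨i, hi⟩) else 0, ?_⟩
  rw [← ht, ← Finset.sum_coe_sort S]
  rw [← Equiv.sum_comp e]
  refine Finset.sum_congr rfl fun x _ => ?_
  have h1 : (if hi : (x : α) ∈ S then t (e ⟨x, hi⟩) else 0) = t (e x) := by rw [dif_pos x.2]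
  exact congrArg φ h1

theorem sq_on {α : Type} [DecidableEq α] {S : Finset α} (hS : S.card = 4) (m : ℤ) (hm : 0 ≤ m) :
    ∃ t : α → ℤ, ∑ i ∈ S, t i ^ 2 = m := by
  obtain ⟨N, rfl⟩ := Int.eq_ofNat_of_zero_le hm
  exact on_finset hS (fun x => x ^ 2) N (four_sq N)

theorem tri_on {α : Type} [DecidableEq α] {S : Finset α} (hS : S.card = 4) (m : ℤ) (hm : 0 ≤ m) :
    ∃ t : α → ℤ, ∑ i ∈ S, t i * (t i + 1) = 2 * m := by
  obtain ⟨N, rfl⟩ := Int.eq_ofNat_of_zero_le hm
  exact on_finset hS (fun x => x * (x + 1)) (2 * N) (four_tri N)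

/-- parity of a sum of squares -/
theorem sum_sq_parity {α : Type} (S : Finset α) (t : α → ℤ) :
    (∑ i ∈ S, t i ^ 2 - ∑ i ∈ S, t i) % 2 = 0 := by
  rw [← Finset.sum_sub_distrib]
  refine Int.even_iff.1 (Finset.even_sum _ fun i _ => ?_)
  have h2 : t i ^ 2 - t i = t i * (t i - 1) := by ring
  rw [h2]
  exact Int.even_mul_pred_self _

end Pool.Agent.X328.CF
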